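import Pool.Agent.helper68.Arcs.Defs
/-! Simple arcs: reversal, concatenation, polar coordinates. -/
namespace Pool.Agent.helper68.Arcs
open Set

theorem IsArc.symm {X : Set ℂ} {x y : ℂ} (h : IsArc X x y) : IsArc X y x := by
  obtain ⟨γ, hc, hi, h0, h1, him⟩ := h
  have hm : MapsTo (fun t : ℝ => 1 - t) (Icc 0 1) (Icc 0 1) := by
    intro t ht; constructor <;> simp only [mem_Icc] at ht <;> linarith [ht.1, ht.2]
  refine ⟨fun t => γ (1 - t), ?_, ?_, by simp [h1], by simp [h0], ?_⟩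
  · exact hc.comp (by fun_prop) hm
  · intro s hs t ht hst
    have := hi (hm hs) (hm ht) hst
    linarith
  · rw [← him]
    ext z; constructor
    · rintro ⟨t, ht, rfl⟩; exact ⟨1 - t, hm ht, rfl⟩
    · rintro ⟨t, ht, rfl⟩; exact ⟨1 - t, hm ht, by simp⟩

theorem IsArc.left_mem {X : Set ℂ} {x y : ℂ} (h : IsArc X x y) : x ∈ X := by
  obtain ⟨γ, hc, hi, h0, h1, him⟩ := h
  rw [← him, ← h0]; exact ⟨0, by simp, rfl⟩

theorem IsArc.right_mem {X : Set ℂ} {x y : ℂ} (h : IsArc X x y) : y ∈ X := h.symm.left_mem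

theorem IsArc.trans {X Y : Set ℂ} {x y z : ℂ} (h : IsArc X x y) (h' : IsArc Y y z)
    (hXY : ∀ w ∈ X, w ∈ Y → w = y) : IsArc (X ∪ Y) x z := by
  obtain ⟨γ, hc, hi, h0, h1, him⟩ := h
  obtain ⟨γ', hc', hi', h0', h1', him'⟩ := h'
  set g : ℝ → ℂ := fun t => if t ≤ 1 / 2 then γ (2 * t) else γ' (2 * t - 1) with hg
  have e1 : ∀ t, t ≤ 1 / 2 → g t = γ (2 * t) := by
    intro t ht; simp only [hg, if_pos ht]
  have e2 : ∀ t, 1 / 2 ≤ t → g t = γ' (2 * t - 1) := by
    intro t ht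
    rcases eq_or_lt_of_le ht with h | h
    · rw [← h, e1 _ le_rfl]; norm_num [h1, h0']
    · simp only [hg, if_neg (not_le.2 h)]
  have m1 : MapsTo (fun t : ℝ => 2 * t) (Icc 0 (1 / 2)) (Icc 0 1) := by
    intro t ht; simp only [mem_Icc] at ht ⊢; constructor <;> linarith [ht.1, ht.2]
  have m2 : MapsTo (fun t : ℝ => 2 * t - 1) (Icc (1 / 2) 1) (Icc 0 1) := by
    intro t ht; simp only [mem_Icc] at ht ⊢; constructor <;> linarith [ht.1, ht.2]
  have hU : Icc (0:ℝ) 1 = Icc 0 (1 / 2) ∪ Icc (1 / 2) 1 := by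
    rw [Icc_union_Icc_eq_Icc] <;> norm_num
  refine ⟨g, ?_, ?_, ?_, ?_, ?_⟩
  · rw [hU]
    apply ContinuousOn.union_of_isClosed _ _ isClosed_Icc isClosed_Icc
    · exact (hc.comp (by fun_prop) m1).congr (fun t ht => e1 t ht.2)
    · exact (hc'.comp (by fun_prop) m2).congr (fun t ht => e2 t ht.1)
  · intro s hs t ht hst
    have key : ∀ s t : ℝ, s ∈ Icc (0:ℝ) (1/2) → t ∈ Icc (1/2 : ℝ) 1 → g s = g t → s = t := by
      intro s t hs ht hst
      rw [e1 s hs.2, e2 t ht.1] at hst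
      have hx : γ (2 * s) ∈ X := him ▸ mem_image_of_mem γ (m1 hs)
      have hy : γ' (2 * t - 1) ∈ Y := him' ▸ mem_image_of_mem γ' (m2 ht)
      have hw := hXY _ hx (hst ▸ hy)
      have a1 : 2 * s = 1 := hi (m1 hs) (by simp) (by rw [hw, h1])
      have a2 : 2 * t - 1 = 0 := hi' (m2 ht) (by simp) (by rw [← hst, hw, h0'])
      linarith
    rw [hU] at hs ht
    rcases hs with hs | hs <;> rcases ht with ht | ht
    · rw [e1 s hs.2, e1 t ht.2] at hst
      have := hi (m1 hs) (m1 ht) hst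
      linarith
    · exact key s t hs ht hst
    · exact (key t s ht hs hst.symm).symm
    · rw [e2 s hs.1, e2 t ht.1] at hst
      have := hi' (m2 hs) (m2 ht) hst
      linarith
  · rw [e1 0 (by norm_num)]; simpa using h0
  · rw [e2 1 (by norm_num)]; norm_num [h1']
  · rw [hU, image_union]
    congr 1
    · rw [← him]
      ext w; constructor
      · rintro ⟨t, ht, rfl⟩; exact ⟨2 * t, m1 ht, (e1 t ht.2).symm⟩
      · rintro ⟨t, ht, rfl⟩
        have ht' : t / 2 ∈ Icc (0:ℝ) (1/2) := by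
          simp only [mem_Icc] at ht ⊢; constructor <;> linarith [ht.1, ht.2]
        exact ⟨t / 2, ht', by rw [e1 _ ht'.2]; congr 1; ring⟩
    · rw [← him']
      ext w; constructor
      · rintro ⟨t, ht, rfl⟩; exact ⟨2 * t - 1, m2 ht, (e2 t ht.1).symm⟩
      · rintro ⟨t, ht, rfl⟩
        have ht' : (t + 1) / 2 ∈ Icc (1/2 : ℝ) 1 := by
          simp only [mem_Icc] at ht ⊢; constructor <;> linarith [ht.1, ht.2]
        exact ⟨(t + 1) / 2, ht', by rw [e2 _ ht'.1]; congr 1; ring⟩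

theorem isArc_image {f : ℝ → ℂ} (hc : Continuous f) (hi : InjOn f (Icc 0 1)) :
    IsArc (f '' Icc 0 1) (f 0) (f 1) := ⟨f, hc.continuousOn, hi, rfl, rfl, rfl⟩

/-- the point with logarithm `t + i φ` -/
noncomputable def EE (t φ : ℝ) : ℂ := Complex.exp (t + φ * Complex.I)

theorem EE_eq {t φ t' φ' : ℝ} :
    EE t φ = EE t' φ' ↔ t = t' ∧ ∃ k : ℤ, φ = φ' + k * (2 * Real.pi) := by
  unfold EE
  rw [Complex.exp_eq_exp_iff_exists_int]
  constructor
  · rintro ⟨n, hn⟩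
    have h1 := congrArg Complex.re hn
    have h2 := congrArg Complex.im hn
    simp at h1 h2
    exact ⟨h1, n, h2⟩
  · rintro ⟨rfl, k, rfl⟩
    exact ⟨k, by push_cast; ring⟩

theorem continuous_EE {f g : ℝ → ℝ} (hf : Continuous f) (hg : Continuous g) :
    Continuous fun s => EE (f s) (g s) := by
  unfold EE; fun_prop

end Pool.Agent.helper68.Arcs
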