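import Pool.Agent.helper68.Arcs.Draw
/-! The parity function of a closed one-sided cycle. -/
namespace Pool.Agent.helper68.Arcs
open Set Finset

noncomputable def FF (θ x : ℝ) : ℤ := ⌈(θ - x) / (2 * Real.pi)⌉

theorem two_pi_pos' : (0:ℝ) < 2 * Real.pi := by positivity

theorem FF_add (θ x : ℝ) (k : ℤ) : FF θ (x + k * (2 * Real.pi)) = FF θ x - k := by
  unfold FF
  have : (θ - (x + k * (2 * Real.pi))) / (2 * Real.pi) = (θ - x) / (2 * Real.pi) - k := by
    field_simp; ring
  rw [this, Int.ceil_sub_intCast]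

theorem FF_add_left (θ x : ℝ) (k : ℤ) : FF (θ + k * (2 * Real.pi)) x = FF θ x + k := by
  unfold FF
  have : (θ + k * (2 * Real.pi) - x) / (2 * Real.pi) = (θ - x) / (2 * Real.pi) + k := by
    field_simp; ring
  rw [this, Int.ceil_add_intCast]

theorem FF_shift (θ x y : ℝ) : FF (θ + y) (x + y) = FF θ x := by
  unfold FF; congr 2; ring

theorem FF_anti {θ x y : ℝ} (h : x ≤ y) : FF θ y ≤ FF θ x := by
  unfold FF
  apply Int.ceil_le_ceil
  apply div_le_div_of_nonneg_right _ two_pi_pos'.le
  linarith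

theorem FF_mono {θ θ' x : ℝ} (h : θ ≤ θ') : FF θ x ≤ FF θ' x := by
  unfold FF
  apply Int.ceil_le_ceil
  apply div_le_div_of_nonneg_right _ two_pi_pos'.le
  linarith

theorem FF_pres_aux {θ x y : ℝ} (hxy : x ≤ y) (h : FF θ x ≠ FF θ y) :
    ∃ k : ℤ, θ + k * (2 * Real.pi) ∈ Icc x y := by
  have h1 : FF θ y < FF θ x := lt_of_le_of_ne (FF_anti hxy) h.symm
  refine ⟨-FF θ y, ?_⟩
  have h2 : (θ - y) / (2 * Real.pi) ≤ FF θ y := Int.le_ceil _
  have h3 : (FF θ y : ℝ) < (θ - x) / (2 * Real.pi) := Int.lt_ceil.1 h1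
  rw [div_le_iff₀ two_pi_pos'] at h2
  rw [lt_div_iff₀ two_pi_pos'] at h3
  push_cast
  constructor <;> linarith

theorem FF_pres {S : Set ℝ} (hS : S.OrdConnected) {θ x y : ℝ} (hx : x ∈ S) (hy : y ∈ S)
    (h : FF θ x ≠ FF θ y) : ∃ k : ℤ, θ + k * (2 * Real.pi) ∈ S := by
  rcases le_total x y with hxy | hxy
  · obtain ⟨k, hk⟩ := FF_pres_aux hxy h; exact ⟨k, hS.out hx hy hk⟩
  · obtain ⟨k, hk⟩ := FF_pres_aux hxy h.symm; exact ⟨k, hS.out hy hx hk⟩

theorem FF_move {θ θ' x : ℝ} (hθ : θ ≤ θ') (h : FF θ x ≠ FF θ' x) :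
    ∃ k : ℤ, x + k * (2 * Real.pi) ∈ Icc θ θ' := by
  have h1 : FF θ x < FF θ' x := lt_of_le_of_ne (FF_mono hθ) h
  refine ⟨FF θ x, ?_⟩
  have h2 : (θ - x) / (2 * Real.pi) ≤ FF θ x := Int.le_ceil _
  have h3 : (FF θ x : ℝ) < (θ' - x) / (2 * Real.pi) := Int.lt_ceil.1 h1
  rw [div_le_iff₀ two_pi_pos'] at h2
  rw [lt_div_iff₀ two_pi_pos'] at h3
  constructor <;> linarith

theorem sum_shift_one {M : Type} [AddCommGroup M] (g : ℕ → M) (n : ℕ) (h : g n = g 0) :
    ∑ i ∈ range n, g (i + 1) = ∑ i ∈ range n, g i := by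
  have h1 := Finset.sum_range_succ g n
  have h2 := Finset.sum_range_succ' g n
  rw [h1, h] at h2
  exact (add_right_cancel h2).symm

theorem sum_shift {M : Type} [AddCommGroup M] (g : ℕ → M) (n : ℕ) (h : ∀ i, g (i + n) = g i) (k : ℕ) :
    ∑ i ∈ range n, g (i + k) = ∑ i ∈ range n, g i := by
  induction k with
  | zero => simp
  | succ k ih =>
    rw [← ih]
    have := sum_shift_one (fun i => g (i + k)) n (by
      show g (n + k) = g (0 + k)
      rw [add_comm n k, h, zero_add])
    rw [← this]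
    apply Finset.sum_congr rfl
    intro i _
    congr 1; ring

/-- a fixed point free involution of a cylinder: half a turn and reversal of heights -/
structure Deck {W : Type} (B : Cyl W) where
  τ : W → W
  t : W → ℤ
  inv : ∀ w, τ (τ w) = w
  t_τ : ∀ w, t (τ w) = 1 - t w
  h_neg : ∀ w, B.h (τ w) = - B.h w
  shift : ∀ w x, x ∈ B.ang w → x + (2 * t w - 1) * Real.pi ∈ B.ang (τ w)

variable {W : Type} {B : Cyl W}

theorem parity [Finite W] (K : Deck B) (q : ℕ → W) (T : ℕ → ℝ) (m : ℕ)
    (hq : ∀ i, q (i + m) = K.τ (q i))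
    (hT : ∀ i, ∃ k : ℤ, T (i + m) = T i + Real.pi + k * (2 * Real.pi))
    (hs : ∀ i, B.Sees (q i) (q (i + 1)) (T i) ∨ B.Sees (q (i + 1)) (q i) (T i)) :
    ∃ par : W → Prop, (∀ b, b ∉ Set.range q → (par b ↔ ¬ par (K.τ b))) ∧
      ∀ b c θ, b ∉ Set.range q → c ∉ Set.range q → B.Sees b c θ → (par b ↔ par c) := by
  classical
  have hq2 : ∀ i, q (i + 2 * m) = q i := by
    intro i
    have : i + 2 * m = (i + m) + m := by ring
    rw [this, hq, hq, K.inv]
  -- lifts
  have hα : ∀ i, ∃ α ∈ B.ang (q (i + 1)), ∃ k : ℤ, α = T i + k * (2 * Real.pi) := by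
    intro i
    have : B.Pres (q (i + 1)) (T i) := by
      rcases hs i with h | h
      · exact h.2.1
      · exact h.1
    obtain ⟨k, hk⟩ := this; exact ⟨_, hk, k, rfl⟩
  have hβ : ∀ i, ∃ β ∈ B.ang (q (i + 1)), ∃ k : ℤ, β = T (i + 1) + k * (2 * Real.pi) := by
    intro i
    have : B.Pres (q (i + 1)) (T (i + 1)) := by
      rcases hs (i + 1) with h | h
      · exact h.1
      · exact h.2.1
    obtain ⟨k, hk⟩ := this; exact ⟨_, hk, k, rfl⟩
  choose α hαm kα hαt using hα
  choose β hβm kβ hβt using hβ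
  -- symmetry of the lifts
  have hαs : ∀ i, α (i + m) = α i + (2 * K.t (q (i + 1)) - 1) * Real.pi := by
    intro i
    have h1 := hαm (i + m)
    have e1 : i + m + 1 = (i + 1) + m := by ring
    rw [e1, hq] at h1
    have h2 := K.shift _ _ (hαm i)
    obtain ⟨k, hk⟩ := hT i
    have h3 : α (i + m) = α i + (2 * K.t (q (i + 1)) - 1) * Real.pi +
        ((kα (i + m) + k - kα i + 1 - K.t (q (i + 1)) : ℤ) : ℝ) * (2 * Real.pi) := by
      rw [hαt (i + m), hαt i, hk]; push_cast; ring
    have := B.simple _ _ h1 _ h2 _ h3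
    rw [this] at h3
    rw [h3]; simp
  have hβs : ∀ i, β (i + m) = β i + (2 * K.t (q (i + 1)) - 1) * Real.pi := by
    intro i
    have h1 := hβm (i + m)
    have e1 : i + m + 1 = (i + 1) + m := by ring
    rw [e1, hq] at h1
    have h2 := K.shift _ _ (hβm i)
    obtain ⟨k, hk⟩ := hT (i + 1)
    have h3 : β (i + m) = β i + (2 * K.t (q (i + 1)) - 1) * Real.pi +
        ((kβ (i + m) + k - kβ i + 1 - K.t (q (i + 1)) : ℤ) : ℝ) * (2 * Real.pi) := by
      rw [hβt (i + m), hβt i, e1, hk]; push_cast; ring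
    have := B.simple _ _ h1 _ h2 _ h3
    rw [this] at h3
    rw [h3]; simp
  have ht_s : ∀ i, K.t (q (i + m)) = 1 - K.t (q i) := by
    intro i; rw [hq, K.t_τ]
  have hα2 : ∀ i, α (i + 2 * m) = α i := by
    intro i
    have : i + 2 * m = (i + m) + m := by ring
    rw [this, hαs, hαs]
    have e1 : i + m + 1 = (i + 1) + m := by ring
    rw [e1, ht_s]; push_cast; ring
  have hβ2 : ∀ i, β (i + 2 * m) = β i := by
    intro i
    have : i + 2 * m = (i + m) + m := by ring
    rw [this, hβs, hβs]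
    have e1 : i + m + 1 = (i + 1) + m := by ring
    rw [e1, ht_s]; push_cast; ring
  set c : ℕ → ℝ → ℤ := fun i θ => FF θ (α i) - FF θ (β i) with hc
  have c2 : ∀ i θ, c (i + 2 * m) θ = c i θ := by
    intro i θ; simp only [hc, hα2, hβ2]
  have cper : ∀ i θ (k : ℤ), c i (θ + k * (2 * Real.pi)) = c i θ := by
    intro i θ k; simp only [hc, FF_add_left]; ring
  have cpres : ∀ i θ, c i θ ≠ 0 → B.Pres (q (i + 1)) θ := by
    intro i θ h
    exact FF_pres (B.conn _) (hαm i) (hβm i) (fun h' => h (by simp only [hc]; rw [h']; ring))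
  have csym : ∀ i θ, c (i + m) (θ + Real.pi) = c i θ := by
    intro i θ
    simp only [hc, hαs, hβs]
    have e : ∀ x : ℝ, FF (θ + Real.pi) (x + (2 * (K.t (q (i + 1)) : ℝ) - 1) * Real.pi) =
        FF θ x + (1 - K.t (q (i + 1))) := by
      intro x
      have e1 : θ + Real.pi = (θ + ((1 - K.t (q (i + 1)) : ℤ) : ℝ) * (2 * Real.pi)) +
          (2 * (K.t (q (i + 1)) : ℝ) - 1) * Real.pi := by push_cast; ring
      rw [e1, FF_shift, FF_add_left]
    rw [e, e]; ring
  set S : W → ℝ → ℤ := fun b θ => ∑ i ∈ range (2 * m), if B.h b < B.h (q (i + 1)) then c i θ else 0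
    with hS
  have Sper : ∀ b θ (k : ℤ), S b (θ + k * (2 * Real.pi)) = S b θ := by
    intro b θ k; simp only [hS, cper]
  -- Claim A
  have claimA0 : ∀ b, b ∉ Set.range q → ∀ θ₁ ∈ B.ang b, ∀ θ₂ ∈ B.ang b, θ₁ ≤ θ₂ → S b θ₁ = S b θ₂ := by
    intro b hb θ₁ h₁ θ₂ h₂ h12
    set N : ℝ → ℤ := fun x => FF θ₂ x - FF θ₁ x with hN
    have hNk : ∀ x (k : ℤ), N (x + k * (2 * Real.pi)) = N x := by
      intro x k; simp only [hN, FF_add]; ring
    have hd : ∀ i, c i θ₂ - c i θ₁ = N (T i) - N (T (i + 1)) := by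
      intro i
      have e1 : N (α i) = N (T i) := by rw [hαt i, hNk]
      have e2 : N (β i) = N (T (i + 1)) := by rw [hβt i, hNk]
      rw [← e1, ← e2]; simp only [hc, hN]; ring
    set χ : ℕ → ℤ := fun i => if B.h b < B.h (q i) then 1 else 0 with hχ
    have e0 : S b θ₂ - S b θ₁ = ∑ i ∈ range (2 * m), (χ (i + 1) * N (T i) - χ (i + 1) * N (T (i + 1))) := by
      simp only [hS]
      rw [← Finset.sum_sub_distrib]
      apply Finset.sum_congr rfl
      intro i _
      have := hd i
      simp only [hχ]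
      split_ifs <;> linarith
    have e1 : ∑ i ∈ range (2 * m), χ (i + 1) * N (T (i + 1)) = ∑ i ∈ range (2 * m), χ i * N (T i) := by
      apply sum_shift_one (fun i => χ i * N (T i))
      obtain ⟨k, hk⟩ := hT (0 + m)
      obtain ⟨k', hk'⟩ := hT 0
      have e3 : T (2 * m) = T 0 + ((k + k' + 1 : ℤ) : ℝ) * (2 * Real.pi) := by
        have : 2 * m = 0 + m + m := by ring
        rw [this, hk, hk']; push_cast; ring
      have e4 : q (2 * m) = q 0 := by
        have := hq2 0
        rwa [zero_add] at this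
      simp only [hχ]
      rw [e3, hNk, e4]
    have e2 : ∑ i ∈ range (2 * m), (χ (i + 1) * N (T i) - χ i * N (T i)) = 0 := by
      apply Finset.sum_eq_zero
      intro i _
      by_cases hz : N (T i) = 0
      · rw [hz]; ring
      · have hmv := FF_move h12 (x := T i) (fun h => hz (by simp only [hN]; rw [h]; ring))
        obtain ⟨k, hk⟩ := hmv
        have hbp : B.Pres b (T i) := ⟨k, (B.conn b).out h₁ h₂ hk⟩
        have hne : ∀ j, B.Pres (q j) (T i) → B.h b ≠ B.h (q j) := by
          intro j hj hh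
          exact hb ⟨j, (B.distinct b (q j) (T i) hbp hj hh).symm⟩
        have : χ (i + 1) = χ i := by
          rcases hs i with h | h
          · have n1 := hne i h.1
            have n2 := hne (i + 1) h.2.1
            have h3 := h.2.2.2 b hbp
            have h4 := h.2.2.1
            simp only [hχ]
            split_ifs with a1 a2 a2
            · rfl
            · exact (h3 (lt_of_le_of_ne (not_lt.1 a2) n1.symm) a1).elim
            · exact (a1 (lt_trans a2 h4)).elim
            · rfl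
          · have n1 := hne i h.2.1
            have n2 := hne (i + 1) h.1
            have h3 := h.2.2.2 b hbp
            have h4 := h.2.2.1
            simp only [hχ]
            split_ifs with a1 a2 a2
            · rfl
            · exact (a2 (lt_trans a1 h4)).elim
            · exact (h3 (lt_of_le_of_ne (not_lt.1 a1) n2.symm) a2).elim
            · rfl
        rw [this]; ring
    have e0' : S b θ₂ - S b θ₁ = 0 := by
      rw [e0, Finset.sum_sub_distrib, e1, ← Finset.sum_sub_distrib]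
      exact e2
    linarith
  have claimA : ∀ b, b ∉ Set.range q → ∀ θ₁ θ₂, B.Pres b θ₁ → B.Pres b θ₂ → S b θ₁ = S b θ₂ := by
    intro b hb θ₁ θ₂ ⟨k₁, h₁⟩ ⟨k₂, h₂⟩
    rw [← Sper b θ₁ k₁, ← Sper b θ₂ k₂]
    rcases le_total (θ₁ + k₁ * (2 * Real.pi)) (θ₂ + k₂ * (2 * Real.pi)) with h | h
    · exact claimA0 b hb _ h₁ _ h₂ h
    · exact (claimA0 b hb _ h₂ _ h₁ h).symm
  -- Claim B
  have claimB : ∀ b d θ, b ∉ Set.range q → d ∉ Set.range q → B.Sees b d θ → S b θ = S d θ := by
    intro b d θ hb hd h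
    simp only [hS]
    apply Finset.sum_congr rfl
    intro i _
    by_cases hz : c i θ = 0
    · rw [hz]; simp
    · have hp := cpres i θ hz
      have hne : B.h (q (i + 1)) ≠ B.h d := fun hh => hd ⟨i + 1, B.distinct _ _ θ hp h.2.1 hh⟩
      have h3 := h.2.2.2 _ hp
      have h4 := h.2.2.1
      by_cases a1 : B.h b < B.h (q (i + 1))
      · have a2 : B.h d < B.h (q (i + 1)) := by
          by_contra hcon
          exact h3 a1 (lt_of_le_of_ne (not_lt.1 hcon) hne)
        rw [if_pos a1, if_pos a2]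
      · have a2 : ¬ B.h d < B.h (q (i + 1)) := fun hcon => a1 (lt_trans h4 hcon)
        rw [if_neg a1, if_neg a2]
  -- Claim C
  have claimC : ∀ b θ, b ∉ Set.range q → B.Pres b θ →
      S b θ + S (K.τ b) (θ + Real.pi) = ∑ i ∈ range (2 * m), c i θ := by
    intro b θ hb hp
    have e1 : S (K.τ b) (θ + Real.pi) =
        ∑ i ∈ range (2 * m), if B.h (q (i + 1)) < B.h b then c i θ else 0 := by
      simp only [hS]
      have := sum_shift (fun i => if B.h (K.τ b) < B.h (q (i + 1)) then c i (θ + Real.pi) else 0) (2 * m)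
        (by
          intro i
          have e1 : i + 2 * m + 1 = (i + 1) + 2 * m := by ring
          simp only [c2, e1, hq2]) m
      rw [← this]
      apply Finset.sum_congr rfl
      intro i _
      have e1 : i + m + 1 = (i + 1) + m := by ring
      simp only [csym, e1, hq, K.h_neg, neg_lt_neg_iff]
    rw [e1]
    simp only [hS]
    rw [← Finset.sum_add_distrib]
    apply Finset.sum_congr rfl
    intro i _
    by_cases hz : c i θ = 0
    · rw [hz]; simp
    · have hp' := cpres i θ hz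
      have hne : B.h (q (i + 1)) ≠ B.h b := fun hh => hb ⟨i + 1, B.distinct _ _ θ hp' hp hh⟩
      rcases lt_or_gt_of_ne hne with h | h
      · rw [if_neg (not_lt.2 h.le), if_pos h]; ring
      · rw [if_pos h, if_neg (not_lt.2 h.le)]; ring
  -- Claim D
  have claimD : ∀ θ, ¬ Even (∑ i ∈ range (2 * m), c i θ) := by
    intro θ
    have hk : ∀ i, ∃ k : ℤ, β i = α (i + 1) + k * (2 * Real.pi) := by
      intro i
      refine ⟨kβ i - kα (i + 1), ?_⟩
      rw [hβt i, hαt (i + 1)]; push_cast; ring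
    choose k hk using hk
    have e1 : ∑ i ∈ range (2 * m), c i θ = ∑ i ∈ range (2 * m), k i := by
      have e2 : ∀ i, c i θ = (FF θ (α i) - FF θ (α (i + 1))) + k i := by
        intro i; simp only [hc]; rw [hk i, FF_add]; ring
      simp only [e2]
      rw [Finset.sum_add_distrib, Finset.sum_sub_distrib,
        sum_shift_one (fun i => FF θ (α i)) (2 * m) (by
          have := hα2 0
          rw [zero_add] at this
          simp only [this])]
      ring
    rw [e1]
    have e3 : ∀ i, k (i + m) = k i + K.t (q (i + 1)) - K.t (q (i + 2)) := by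
      intro i
      have h1 := hk (i + m)
      have e4 : i + m + 1 = (i + 1) + m := by ring
      rw [e4, hαs, hβs, hk i] at h1
      have h2 : ((k (i + m) : ℤ) : ℝ) * (2 * Real.pi) =
          ((k i + K.t (q (i + 1)) - K.t (q (i + 2)) : ℤ) : ℝ) * (2 * Real.pi) := by
        push_cast
        have e5 : i + 1 + 1 = i + 2 := by ring
        rw [e5] at h1
        linarith
      have := mul_right_cancel₀ two_pi_pos'.ne' h2
      exact_mod_cast this
    have e6 : ∑ i ∈ range (2 * m), k i = ∑ i ∈ range m, k i + ∑ i ∈ range m, k (i + m) := by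
      rw [two_mul, Finset.sum_range_add]
      congr 1
      apply Finset.sum_congr rfl
      intro i _; rw [add_comm]
    have e7 : ∑ i ∈ range m, k (i + m) = ∑ i ∈ range m, k i + (K.t (q 1) - K.t (q (m + 1))) := by
      have : ∀ i, k (i + m) = k i + (K.t (q (i + 1)) - K.t (q (i + 1 + 1))) := by
        intro i; rw [e3 i]; ring
      simp only [this]
      rw [Finset.sum_add_distrib]
      congr 1
      have := Finset.sum_range_sub' (fun i => K.t (q (i + 1))) m
      rw [this]
    have e8 : K.t (q (m + 1)) = 1 - K.t (q 1) := by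
      have : m + 1 = 1 + m := by ring
      rw [this, ht_s]
    rw [e6, e7, e8]
    rintro ⟨r, hr⟩
    omega
  choose z hz using B.nonempty
  refine ⟨fun b => Even (S b (z b)), ?_, ?_⟩
  · intro b hb
    have hb' : K.τ b ∉ Set.range q := by
      rintro ⟨i, hi⟩
      apply hb
      refine ⟨i + m, ?_⟩
      rw [hq, hi, K.inv]
    have h1 := claimC b (z b) hb (B.pres_of_mem (hz b))
    have hp : B.Pres (K.τ b) (z b + Real.pi) := by
      have := K.shift b (z b) (hz b)
      refine ⟨K.t b - 1, ?_⟩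
      have e : z b + Real.pi + ((K.t b - 1 : ℤ) : ℝ) * (2 * Real.pi) =
          z b + (2 * K.t b - 1) * Real.pi := by push_cast; ring
      rw [e]; exact this
    have h2 := claimA (K.τ b) hb' (z b + Real.pi) (z (K.τ b)) hp (B.pres_of_mem (hz _))
    rw [h2] at h1
    have h3 := claimD (z b)
    rw [← h1, Int.even_add] at h3
    tauto
  · intro b d θ hb hd h
    have h1 := claimB b d θ hb hd h
    have h2 := claimA b hb θ (z b) h.1 (B.pres_of_mem (hz b))
    have h3 := claimA d hd θ (z d) h.2.1 (B.pres_of_mem (hz d))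
    rw [h2, h3] at h1
    simp only [h1]

end Pool.Agent.helper68.Arcs
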