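import Pool.Agent.helper68.Arcs.Route
import Pool.Agent.helper68.Arcs.Parity
/-! The double cover of an arc visibility graph. -/
namespace Pool.Agent.helper68.Arcs
open Set

variable {V : Type}

/-- height of a lift -/
noncomputable def hgt (R : ArcRep V) (w : V × Bool) : ℝ := if w.2 then R.rad w.1 else - R.rad w.1

/-- angles of a lift -/
def angs (R : ArcRep V) (w : V × Bool) : Set ℝ :=
  if w.2 then R.ang w.1 else {x | x - Real.pi ∈ R.ang w.1}

theorem exp_shift (θ : ℝ) (k : ℤ) :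
    Complex.exp (((θ + k * (2 * Real.pi) : ℝ) : ℂ) * Complex.I) = Complex.exp (θ * Complex.I) := by
  rw [Complex.exp_eq_exp_iff_exists_int]
  exact ⟨k, by push_cast; ring⟩

theorem exp_sub_pi (θ : ℝ) :
    Complex.exp (((θ - Real.pi : ℝ) : ℂ) * Complex.I) = - Complex.exp (θ * Complex.I) := by
  have : (((θ - Real.pi : ℝ) : ℂ) * Complex.I) = θ * Complex.I - Real.pi * Complex.I := by
    push_cast; ring
  rw [this, Complex.exp_sub, Complex.exp_pi_mul_I]
  ring

theorem pres_arc (R : ArcRep V) (w : V × Bool) (θ : ℝ)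
    (h : ∃ k : ℤ, θ + k * (2 * Real.pi) ∈ angs R w) :
    (hgt R w : ℂ) * Complex.exp (θ * Complex.I) ∈ R.arc w.1 := by
  obtain ⟨k, hk⟩ := h
  obtain ⟨v, b⟩ := w
  cases b
  · simp only [angs, Bool.false_eq_true, if_false, mem_ofPred_eq] at hk
    refine ⟨_, hk, ?_⟩
    simp only [hgt, Bool.false_eq_true, if_false]
    rw [exp_sub_pi, exp_shift]
    push_cast; ring
  · simp only [angs, if_true] at hk
    refine ⟨_, hk, ?_⟩
    simp only [hgt, if_true]
    rw [exp_shift]

theorem hgt_ne (R : ArcRep V) {v v' : V} : hgt R (v, true) ≠ hgt R (v', false) := by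
  simp only [hgt, if_true, Bool.false_eq_true, if_false]
  have := R.rad_pos v
  have := R.rad_pos v'
  intro h; linarith

noncomputable def cyl (R : ArcRep V) : Cyl (V × Bool) where
  h := hgt R
  ang := angs R
  nonempty := by
    rintro ⟨v, b⟩
    obtain ⟨x, hx⟩ := R.nonempty v
    cases b
    · exact ⟨x + Real.pi, by simp [angs, hx]⟩
    · exact ⟨x, by simp [angs, hx]⟩
  conn := by
    rintro ⟨v, b⟩
    cases b
    · simp only [angs, Bool.false_eq_true, if_false]
      constructor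
      intro x hx y hy z hz
      exact (R.conn v).out hx hy ⟨by linarith [hz.1], by linarith [hz.2]⟩
    · simp only [angs, if_true]; exact R.conn v
  simple := by
    rintro ⟨v, b⟩ x hx y hy k hk
    cases b
    · simp only [angs, Bool.false_eq_true, if_false, mem_ofPred_eq] at hx hy
      exact R.simple v _ hx _ hy k (by linarith)
    · simp only [angs, if_true] at hx hy
      exact R.simple v _ hx _ hy k hk
  distinct := by
    rintro ⟨v, b⟩ ⟨v', b'⟩ θ h h' hh
    have hb : b = b' := by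
      cases b <;> cases b'
      · rfl
      · exact (hgt_ne R hh.symm).elim
      · exact (hgt_ne R hh).elim
      · rfl
    subst hb
    have h1 := pres_arc R _ θ h
    have h2 := pres_arc R _ θ h'
    rw [hh] at h1
    by_contra hne
    have hv : v ≠ v' := fun e => hne (by rw [e])
    exact Set.disjoint_left.1 (R.disj v v' hv) h1 h2

def deckMap (w : V × Bool) : V × Bool := (w.1, !w.2)

noncomputable def deck (R : ArcRep V) : Deck (cyl R) where
  τ := deckMap
  t := fun w => if w.2 then 1 else 0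
  inv := by rintro ⟨v, b⟩; simp [deckMap]
  t_τ := by rintro ⟨v, b⟩; cases b <;> simp [deckMap]
  h_neg := by
    rintro ⟨v, b⟩
    cases b <;> simp [deckMap, cyl, hgt]
  shift := by
    rintro ⟨v, b⟩ x hx
    cases b
    · simp only [cyl, angs, Bool.false_eq_true, if_false, mem_ofPred_eq] at hx
      simp only [cyl, angs, deckMap, Bool.not_false, if_true, Bool.false_eq_true, if_false]
      convert hx using 1
      push_cast; ring
    · simp only [cyl, angs, if_true] at hx
      simp only [cyl, angs, deckMap, Bool.not_true, if_true, Bool.false_eq_true, if_false,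
        mem_ofPred_eq]
      convert hx using 1
      push_cast; ring

theorem Deck.pres {W : Type} {B : Cyl W} (K : Deck B) {w : W} {θ : ℝ} (h : B.Pres w θ) :
    B.Pres (K.τ w) (θ + Real.pi) := by
  obtain ⟨k, hk⟩ := h
  have := K.shift _ _ hk
  refine ⟨k + K.t w - 1, ?_⟩
  convert this using 1
  push_cast; ring

theorem Deck.sees {W : Type} {B : Cyl W} (K : Deck B) {a b : W} {θ : ℝ} (h : B.Sees a b θ) :
    B.Sees (K.τ b) (K.τ a) (θ + Real.pi) := by
  refine ⟨K.pres h.2.1, K.pres h.1, ?_, ?_⟩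
  · rw [K.h_neg, K.h_neg]; linarith [h.2.2.1]
  · intro c hc h1 h2
    have h3 := K.pres hc
    have h4 : B.Pres (K.τ c) θ := B.pres_congr ⟨1, by push_cast; ring⟩ h3
    rw [K.h_neg] at h1 h2
    refine h.2.2.2 (K.τ c) h4 ?_ ?_ <;> rw [K.h_neg] <;> linarith

/-- consecutive bars of `u` and `v` -/
theorem exists_consecutive [Finite V] (R : ArcRep V) {u v : V} {θ : ℝ} {a₀ b₀ : V × Bool}
    (ha : a₀.1 = u) (hb : b₀.1 = v) (hpa : (cyl R).Pres a₀ θ) (hpb : (cyl R).Pres b₀ θ)
    (hlt : hgt R a₀ < hgt R b₀)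
    (hbt : ∀ w, (cyl R).Pres w θ → hgt R a₀ < hgt R w → hgt R w < hgt R b₀ → w.1 = u ∨ w.1 = v) :
    ∃ a b : V × Bool, a.1 = u ∧ b.1 = v ∧ (cyl R).Sees a b θ := by
  obtain ⟨b, ⟨⟨hb1, hb2, hb3⟩, hmin⟩⟩ := Set.exists_min_image
    {w : V × Bool | (cyl R).Pres w θ ∧ w.1 = v ∧ hgt R a₀ < hgt R w} (hgt R) (Set.toFinite _)
    ⟨b₀, hpb, hb, hlt⟩
  obtain ⟨a, ⟨⟨ha1, ha2, ha3, ha4⟩, hmax⟩⟩ := Set.exists_max_image
    {w : V × Bool | (cyl R).Pres w θ ∧ w.1 = u ∧ hgt R a₀ ≤ hgt R w ∧ hgt R w < hgt R b} (hgt R)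
    (Set.toFinite _) ⟨a₀, hpa, ha, le_rfl, hb3⟩
  refine ⟨a, b, ha2, hb2, ha1, hb1, ha4, ?_⟩
  intro c hc h1 h2
  have h1' : hgt R a < hgt R c := h1
  have h2' : hgt R c < hgt R b := h2
  have h3 : hgt R b ≤ hgt R b₀ := hmin b₀ ⟨hpb, hb, hlt⟩
  rcases hbt c hc (by linarith) (by linarith) with h | h
  · have := hmax c ⟨hc, h, by linarith, h2'⟩
    linarith
  · have := hmin c ⟨hc, h, by linarith⟩
    linarith

theorem mem_seg {t₁ t₂ t : ℝ} (ζ : ℂ) (h : (t₁ < t ∧ t < t₂) ∨ (t₂ < t ∧ t < t₁)) :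
    (t : ℂ) * ζ ∈ segment ℝ ((t₁ : ℂ) * ζ) ((t₂ : ℂ) * ζ) := by
  wlog hlt : t₁ < t ∧ t < t₂ generalizing t₁ t₂
  · rw [segment_symm]
    rcases h with h | h
    · exact absurd h hlt
    · exact this (Or.inl h) h
  obtain ⟨h1, h2⟩ := hlt
  have h3 : 0 < t₂ - t₁ := by linarith
  refine ⟨(t₂ - t) / (t₂ - t₁), (t - t₁) / (t₂ - t₁), by apply div_nonneg <;> linarith,
    by apply div_nonneg <;> linarith, by field_simp; ring, ?_⟩
  simp only [Complex.real_smul]
  have h4 : ((t₂ : ℂ) - t₁) ≠ 0 := by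
    have : ((t₂ - t₁ : ℝ) : ℂ) ≠ 0 := by exact_mod_cast h3.ne'
    simpa using this
  push_cast
  field_simp
  ring

theorem exists_sees [Finite V] (R : ArcRep V) {u v : V} (h : (R.visGraph 0).Adj u v) :
    ∃ a b : V × Bool, ∃ θ, a.1 = u ∧ b.1 = v ∧ (cyl R).Sees a b θ := by
  obtain ⟨huv, z, ⟨φ, hφ, hz⟩, z', ⟨ψ, hψ, hz'⟩, him, hcard⟩ := h
  simp only at hz hz'
  have hru := R.rad_pos u
  have hrv := R.rad_pos v
  -- the two angles differ by a multiple of pi
  have hsin : Real.sin (φ - ψ) = 0 := by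
    rw [← hz, ← hz'] at him
    have e : (↑(R.rad u) * Complex.exp (↑φ * Complex.I)) *
        (starRingEnd ℂ) (↑(R.rad v) * Complex.exp (↑ψ * Complex.I)) =
        ((R.rad u * R.rad v : ℝ) : ℂ) * Complex.exp (((φ - ψ : ℝ) : ℂ) * Complex.I) := by
      rw [map_mul, Complex.conj_ofReal, ← Complex.exp_conj, map_mul, Complex.conj_ofReal,
        Complex.conj_I]
      have : Complex.exp (((φ - ψ : ℝ) : ℂ) * Complex.I) =
          Complex.exp (↑φ * Complex.I) * Complex.exp (↑ψ * -Complex.I) := by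
        rw [← Complex.exp_add]; congr 1; push_cast; ring
      rw [this]; push_cast; ring
    rw [e, Complex.im_ofReal_mul, Complex.exp_ofReal_mul_I_im] at him
    rcases mul_eq_zero.1 him with h | h
    · exact absurd h (by positivity)
    · exact h
  obtain ⟨n, hn⟩ := Real.sin_eq_zero_iff.1 hsin
  have hempty : ∀ w, w ≠ u → w ≠ v → ∀ y, y ∈ segment ℝ z z' → y ∉ R.arc w := by
    intro w h1 h2 y hy hy'
    have h0 : {w | w ≠ u ∧ w ≠ v ∧ (segment ℝ z z' ∩ R.arc w).Nonempty} = ∅ := by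
      rw [← Set.encard_eq_zero]
      simpa using hcard
    have : w ∈ ({w | w ≠ u ∧ w ≠ v ∧ (segment ℝ z z' ∩ R.arc w).Nonempty} : Set V) :=
      ⟨h1, h2, y, hy, hy'⟩
    rw [h0] at this
    exact this
  -- the second bar
  have hb : ∃ b₀ : V × Bool, b₀.1 = v ∧ (cyl R).Pres b₀ φ ∧
      z' = (hgt R b₀ : ℂ) * Complex.exp (φ * Complex.I) := by
    rcases Int.even_or_odd' n with ⟨k, rfl | rfl⟩
    · refine ⟨(v, true), rfl, ⟨-k, ?_⟩, ?_⟩
      · have : φ + ((-k : ℤ) : ℝ) * (2 * Real.pi) = ψ := by push_cast at hn ⊢; linarith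
        rw [this]; simpa [cyl, angs] using hψ
      · have e : φ = ψ + k * (2 * Real.pi) := by push_cast at hn; linarith
        rw [e, exp_shift, ← hz']; simp [hgt]
    · refine ⟨(v, false), rfl, ⟨-k, ?_⟩, ?_⟩
      · have : φ + ((-k : ℤ) : ℝ) * (2 * Real.pi) - Real.pi = ψ := by push_cast at hn ⊢; linarith
        simp only [cyl, angs, Bool.false_eq_true, if_false]
        show φ + ((-k : ℤ) : ℝ) * (2 * Real.pi) - Real.pi ∈ R.ang v
        rw [this]; exact hψ
      · have e : ψ = (φ + ((-k : ℤ) : ℝ) * (2 * Real.pi)) - Real.pi := by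
          push_cast at hn ⊢; linarith
        rw [← hz', e, exp_sub_pi, exp_shift]; simp [hgt]
  obtain ⟨b₀, hb1, hb2, hb3⟩ := hb
  have ha2 : (cyl R).Pres (u, true) φ := ⟨0, by simpa [cyl, angs] using hφ⟩
  have ha3 : z = (hgt R (u, true) : ℂ) * Complex.exp (φ * Complex.I) := by
    rw [← hz]; simp [hgt]
  have hbt : ∀ w, (cyl R).Pres w φ → ((hgt R (u, true) < hgt R w ∧ hgt R w < hgt R b₀) ∨
      (hgt R b₀ < hgt R w ∧ hgt R w < hgt R (u, true))) → w.1 = u ∨ w.1 = v := by
    intro w hw h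
    by_contra hcon
    push Not at hcon
    refine hempty w.1 hcon.1 hcon.2 _ ?_ (pres_arc R w φ hw)
    rw [ha3, hb3]
    exact mem_seg _ h
  have hne : hgt R (u, true) ≠ hgt R b₀ := by
    intro h
    have := (cyl R).distinct _ _ φ ha2 hb2 h
    apply huv
    rw [← hb1, ← this]
  rcases lt_or_gt_of_ne hne with h | h
  · obtain ⟨a, b, h1, h2, h3⟩ := exists_consecutive R (a₀ := (u, true)) rfl hb1 ha2 hb2 h
      (fun w hw h1 h2 => hbt w hw (Or.inl ⟨h1, h2⟩))
    exact ⟨a, b, φ, h1, h2, h3⟩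
  · obtain ⟨b, a, h1, h2, h3⟩ := exists_consecutive R (b₀ := (u, true)) hb1 rfl hb2 ha2 h
      (fun w hw h1 h2 => (hbt w hw (Or.inr ⟨h1, h2⟩)).symm)
    exact ⟨(deck R).τ a, (deck R).τ b, φ + Real.pi, h2, h1, (deck R).sees h3⟩

/-! ### The chosen visibility segments and their lifts -/

structure Pick (R : ArcRep V) (e : (R.visGraph 0).edgeSet) where
  a : V × Bool
  b : V × Bool
  θ : ℝ
  he : s(a.1, b.1) = e.1
  sees : (cyl R).Sees a b θ

theorem exists_pick [Finite V] (R : ArcRep V) (e : (R.visGraph 0).edgeSet) : Nonempty (Pick R e) := by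
  obtain ⟨e, he⟩ := e
  induction e using Sym2.ind with
  | _ u v =>
    obtain ⟨a, b, θ, h1, h2, h3⟩ := exists_sees R ((SimpleGraph.mem_edgeSet _).1 he)
    exact ⟨⟨a, b, θ, by rw [h1, h2], h3⟩⟩

noncomputable def pick [Finite V] (R : ArcRep V) (e : (R.visGraph 0).edgeSet) : Pick R e :=
  Classical.choice (exists_pick R e)

theorem Pick.ne {R : ArcRep V} {e : (R.visGraph 0).edgeSet} (P : Pick R e) : P.a.1 ≠ P.b.1 := by
  have h := e.2
  rw [← P.he] at h
  exact ((SimpleGraph.mem_edgeSet _).1 h).ne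

noncomputable def edg [Finite V] (R : ArcRep V) : Edges (cyl R) ((R.visGraph 0).edgeSet × Bool) where
  lo := fun ε => if ε.2 then (pick R ε.1).a else deckMap (pick R ε.1).b
  hi := fun ε => if ε.2 then (pick R ε.1).b else deckMap (pick R ε.1).a
  th := fun ε => if ε.2 then (pick R ε.1).θ else (pick R ε.1).θ + Real.pi
  sees := by
    rintro ⟨e, b⟩
    cases b
    · simp only [Bool.false_eq_true, if_false]
      exact (deck R).sees (pick R e).sees
    · simpa using (pick R e).sees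
  uniq := by
    rintro ⟨e, b⟩ ⟨f, c⟩ h1 h2
    have hfst : ∀ (e : (R.visGraph 0).edgeSet) (b : Bool),
        s((if b then (pick R e).a else deckMap (pick R e).b).1,
          (if b then (pick R e).b else deckMap (pick R e).a).1) = e.1 := by
      intro e b
      cases b
      · simp only [Bool.false_eq_true, if_false, deckMap]
        rw [Sym2.eq_swap]; exact (pick R e).he
      · simp only [if_true]; exact (pick R e).he
    have hef : e = f := by
      apply Subtype.ext
      rw [← hfst e b, ← hfst f c]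
      simp only at h1 h2
      rw [h1, h2]
    subst hef
    congr 1
    have hne := (pick R e).ne
    cases b <;> cases c
    · rfl
    · exfalso; simp only [Bool.false_eq_true, if_false, if_true] at h1
      apply hne
      rw [← h1]; rfl
    · exfalso; simp only [Bool.false_eq_true, if_false, if_true] at h1
      apply hne
      rw [h1]; rfl
    · rfl

theorem deckMap_inv (w : V × Bool) : deckMap (deckMap w) = w := by
  obtain ⟨v, b⟩ := w; simp [deckMap]

theorem deckMap_ne (w : V × Bool) : deckMap w ≠ w := by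
  obtain ⟨v, b⟩ := w
  intro h
  simp [deckMap] at h

variable [Finite V] (R : ArcRep V)

theorem ends_fst {ε : (R.visGraph 0).edgeSet × Bool} {w w' : V × Bool} (h : (edg R).Ends ε w w') :
    s(w.1, w'.1) = ε.1.1 := by
  obtain ⟨e, b⟩ := ε
  rcases h with ⟨h1, h2⟩ | ⟨h1, h2⟩ <;> subst h1 <;> subst h2 <;> cases b <;>
    simp only [edg, Bool.false_eq_true, if_false, if_true, deckMap]
  · rw [Sym2.eq_swap]; exact (pick R e).he
  · exact (pick R e).he
  · exact (pick R e).he
  · rw [Sym2.eq_swap]; exact (pick R e).he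

def mir {α : Type} (ε : α × Bool) : α × Bool := (ε.1, !ε.2)

theorem ends_mir {ε : (R.visGraph 0).edgeSet × Bool} {w w' : V × Bool} (h : (edg R).Ends ε w w') :
    (edg R).Ends (mir ε) (deckMap w) (deckMap w') := by
  obtain ⟨e, b⟩ := ε
  rcases h with ⟨h1, h2⟩ | ⟨h1, h2⟩ <;> subst h1 <;> subst h2 <;> cases b
  · right; simp [edg, mir, deckMap_inv]
  · right; simp [edg, mir]
  · left; simp [edg, mir, deckMap_inv]
  · left; simp [edg, mir]

theorem th_mir (ε : (R.visGraph 0).edgeSet × Bool) :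
    ∃ k : ℤ, (edg R).th (mir ε) = (edg R).th ε + Real.pi + k * (2 * Real.pi) := by
  obtain ⟨e, b⟩ := ε
  cases b
  · refine ⟨-1, ?_⟩; simp only [edg, mir, Bool.not_false, if_true, Bool.false_eq_true, if_false]
    push_cast; ring
  · refine ⟨0, ?_⟩; simp only [edg, mir, Bool.not_true, if_true, Bool.false_eq_true, if_false]
    push_cast; ring

/-- adjacency in the double cover -/
def GA (w w' : V × Bool) : Prop := ∃ ε, (edg R).Ends ε w w'

variable {R}

theorem GA.symm {w w' : V × Bool} (h : GA R w w') : GA R w' w := by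
  obtain ⟨ε, h⟩ := h; exact ⟨ε, h.symm⟩

theorem GA.deck {w w' : V × Bool} (h : GA R w w') : GA R (deckMap w) (deckMap w') := by
  obtain ⟨ε, h⟩ := h; exact ⟨mir ε, ends_mir R h⟩

theorem GA.adj {w w' : V × Bool} (h : GA R w w') : (R.visGraph 0).Adj w.1 w'.1 := by
  obtain ⟨ε, h⟩ := h
  have := ends_fst R h
  have h2 := ε.1.2
  rw [← this] at h2
  exact (SimpleGraph.mem_edgeSet _).1 h2

theorem GA.uniq {w w₁ w₂ : V × Bool} (h₁ : GA R w w₁) (h₂ : GA R w w₂) (h : w₁.1 = w₂.1) : w₁ = w₂ := by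
  by_contra hne
  have hd : w₂ = deckMap w₁ := by
    obtain ⟨v, b⟩ := w₁
    obtain ⟨v', b'⟩ := w₂
    simp only at h
    subst h
    cases b <;> cases b' <;> simp_all [deckMap]
  obtain ⟨ε₁, h₁⟩ := h₁
  obtain ⟨ε₂, h₂⟩ := h₂
  have e1 := ends_fst R h₁
  have e2 := ends_fst R h₂
  rw [hd] at e2
  have e3 : ε₁.1 = ε₂.1 := by
    apply Subtype.ext
    rw [← e1, ← e2]; rfl
  have hb : ε₁.2 ≠ ε₂.2 := by
    intro hb
    have : ε₁ = ε₂ := Prod.ext e3 hb
    subst this
    rcases h₁.eq_cases h₂ with ⟨-, h5⟩ | ⟨h5, -⟩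
    · exact hne h5
    · apply h₂.ne; exact h5
  have hm : ε₂ = mir ε₁ := by
    obtain ⟨e, b⟩ := ε₁
    obtain ⟨e', b'⟩ := ε₂
    simp only at e3 hb
    subst e3
    cases b <;> cases b' <;> simp_all [mir]
  have h₃ := ends_mir R h₁
  rw [← hm] at h₃
  rw [hd] at h₂
  rcases h₂.eq_cases h₃ with ⟨h5, -⟩ | ⟨h5, -⟩
  · exact deckMap_ne w h5.symm
  · have : w.1 = w₁.1 := by rw [h5]; rfl
    exact (GA.adj ⟨ε₁, h₁⟩).ne this

theorem GA.lift {u v : V} (h : (R.visGraph 0).Adj u v) {w : V × Bool} (hw : w.1 = u) :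
    ∃ w', w'.1 = v ∧ GA R w w' := by
  set e : (R.visGraph 0).edgeSet := ⟨s(u, v), (SimpleGraph.mem_edgeSet _).2 h⟩ with he
  have h0 := (pick R e).he
  have h1 : (edg R).Ends (e, true) (pick R e).a (pick R e).b := by left; simp [edg]
  have key : ∀ a b : V × Bool, (edg R).Ends (e, true) a b → a.1 = u → b.1 = v →
      ∃ w', w'.1 = v ∧ GA R w w' := by
    intro a b hab ha hb
    by_cases hwa : w = a
    · exact ⟨b, hb, (e, true), hwa ▸ hab⟩
    · have hd : w = deckMap a := by
        obtain ⟨x, c⟩ := a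
        obtain ⟨x', c'⟩ := w
        simp only at ha hw
        subst ha; subst hw
        cases c <;> cases c' <;> simp_all [deckMap]
      exact ⟨deckMap b, hb, mir (e, true), hd ▸ ends_mir R hab⟩
  have h2 : s((pick R e).a.1, (pick R e).b.1) = s(u, v) := h0
  rw [Sym2.eq_iff] at h2
  rcases h2 with ⟨h3, h4⟩ | ⟨h3, h4⟩
  · exact key _ _ h1 h3 h4
  · exact key _ _ h1.symm h4 h3

end Pool.Agent.helper68.Arcs
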