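import Mathlib
/-!
Arc visibility graphs and plane drawings: definitions.
-/
namespace Pool.Agent.helper68.Arcs

/-- `X` is a simple arc in the plane from `x` to `y`: the image of `[0,1]` under a continuous
injective map. -/
def IsArc (X : Set ℂ) (x y : ℂ) : Prop :=
  ∃ γ : ℝ → ℂ, ContinuousOn γ (Set.Icc 0 1) ∧ Set.InjOn γ (Set.Icc 0 1) ∧ γ 0 = x ∧ γ 1 = y ∧
    γ '' Set.Icc 0 1 = X

/-- `G` is planar: the vertices can be placed at distinct points of the plane and the edges drawn
as simple arcs between their end points, such that an arc contains no other vertex and two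
different arcs meet only in common end vertices. -/
def Planar {V : Type} (G : SimpleGraph V) : Prop :=
  ∃ (p : V → ℂ) (A : Sym2 V → Set ℂ), Function.Injective p ∧
    (∀ u v, G.Adj u v → IsArc (A s(u, v)) (p u) (p v)) ∧
    (∀ e ∈ G.edgeSet, ∀ w, p w ∈ A e → w ∈ e) ∧
    (∀ e ∈ G.edgeSet, ∀ f ∈ G.edgeSet, e ≠ f → ∀ z, z ∈ A e → z ∈ A f →
      ∃ v, v ∈ e ∧ v ∈ f ∧ z = p v)

/-- `G` has thickness at most `t`: it is the union of `t` planar graphs on its vertex set. -/
def ThicknessLe {V : Type} (G : SimpleGraph V) (t : ℕ) : Prop :=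
  ∃ H : Fin t → SimpleGraph V, (∀ i, Planar (H i)) ∧ G = ⨆ i, H i

/-- A family of pairwise disjoint circular arcs centred at the origin `O = 0`.  The arc of the
vertex `v` lies on the circle of radius `rad v > 0` and consists of the points with argument in
`ang v`, a nonempty interval (open, closed or half open) which contains no two different angles
with the same direction. -/
structure ArcRep (V : Type) where
  rad : V → ℝ
  ang : V → Set ℝ
  rad_pos : ∀ v, 0 < rad v
  nonempty : ∀ v, (ang v).Nonempty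
  conn : ∀ v, (ang v).OrdConnected
  simple : ∀ v, ∀ x ∈ ang v, ∀ y ∈ ang v, ∀ k : ℤ, x = y + k * (2 * Real.pi) → k = 0
  disj : ∀ u v, u ≠ v →
    Disjoint ((fun θ : ℝ => (rad u : ℂ) * Complex.exp (θ * Complex.I)) '' ang u)
      ((fun θ : ℝ => (rad v : ℂ) * Complex.exp (θ * Complex.I)) '' ang v)

/-- The arc of the vertex `v`, a subset of the plane. -/
def ArcRep.arc {V : Type} (R : ArcRep V) (v : V) : Set ℂ :=
  (fun θ : ℝ => (R.rad v : ℂ) * Complex.exp (θ * Complex.I)) '' R.ang v

/-- The arc `k`-visibility graph: `u` and `v` are adjacent when there are points `z` of the arc of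
`u` and `z'` of the arc of `v` on a common line through the origin such that the segment from `z`
to `z'` meets at most `k` arcs other than the arcs of `u` and `v`. -/
def ArcRep.visGraph {V : Type} (R : ArcRep V) (k : ℕ) : SimpleGraph V where
  Adj u v := u ≠ v ∧ ∃ z ∈ R.arc u, ∃ z' ∈ R.arc v, (z * (starRingEnd ℂ) z').im = 0 ∧
    {w | w ≠ u ∧ w ≠ v ∧ (segment ℝ z z' ∩ R.arc w).Nonempty}.encard ≤ k
  symm := ⟨by
    rintro u v ⟨h, z, hz, z', hz', h1, h2⟩
    refine ⟨h.symm, z', hz', z, hz, ?_, ?_⟩
    · have : z' * (starRingEnd ℂ) z = (starRingEnd ℂ) (z * (starRingEnd ℂ) z') := by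
        simp [mul_comm]
      rw [this, Complex.conj_im, h1, neg_zero]
    · rw [segment_symm]
      have e : {w | w ≠ v ∧ w ≠ u ∧ (segment ℝ z z' ∩ R.arc w).Nonempty} =
          {w | w ≠ u ∧ w ≠ v ∧ (segment ℝ z z' ∩ R.arc w).Nonempty} := by
        ext w; constructor <;> (rintro ⟨a, b, c⟩; exact ⟨b, a, c⟩)
      rw [e]; exact h2⟩
  loopless := ⟨fun u h => h.1 rfl⟩

end Pool.Agent.helper68.Arcs
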