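import Pool.Agent.helper68.Arcs.Arc
/-! Bars on a cylinder and the drawing of a bar visibility graph. -/
namespace Pool.Agent.helper68.Arcs
open Set

/-- bars on the cylinder (angle, height) -/
structure Cyl (W : Type) where
  h : W → ℝ
  ang : W → Set ℝ
  nonempty : ∀ w, (ang w).Nonempty
  conn : ∀ w, (ang w).OrdConnected
  simple : ∀ w, ∀ x ∈ ang w, ∀ y ∈ ang w, ∀ k : ℤ, x = y + k * (2 * Real.pi) → k = 0
  distinct : ∀ w w' θ, (∃ k : ℤ, θ + k * (2 * Real.pi) ∈ ang w) →
    (∃ k : ℤ, θ + k * (2 * Real.pi) ∈ ang w') → h w = h w' → w = w'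

variable {W : Type} (B : Cyl W)

def Cyl.Pres (w : W) (θ : ℝ) : Prop := ∃ k : ℤ, θ + k * (2 * Real.pi) ∈ B.ang w

theorem Cyl.pres_of_mem {w : W} {θ : ℝ} (h : θ ∈ B.ang w) : B.Pres w θ := ⟨0, by simpa using h⟩

theorem Cyl.pres_congr {w : W} {θ θ' : ℝ} (h : ∃ k : ℤ, θ = θ' + k * (2 * Real.pi))
    (hp : B.Pres w θ) : B.Pres w θ' := by
  obtain ⟨k, rfl⟩ := h
  obtain ⟨m, hm⟩ := hp
  refine ⟨k + m, ?_⟩
  have : θ' + ((k + m : ℤ) : ℝ) * (2 * Real.pi) = θ' + k * (2 * Real.pi) + m * (2 * Real.pi) := by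
    push_cast; ring
  rw [this]; exact hm

def Cyl.Sees (a b : W) (θ : ℝ) : Prop :=
  B.Pres a θ ∧ B.Pres b θ ∧ B.h a < B.h b ∧ ∀ c, B.Pres c θ → B.h a < B.h c → B.h c < B.h b → False

theorem modsymm {θ θ' : ℝ} (h : ∃ k : ℤ, θ = θ' + k * (2 * Real.pi)) :
    ∃ k : ℤ, θ' = θ + k * (2 * Real.pi) := by
  obtain ⟨k, rfl⟩ := h; exact ⟨-k, by push_cast; ring⟩

theorem modtrans {θ θ' θ'' : ℝ} (h : ∃ k : ℤ, θ = θ' + k * (2 * Real.pi))
    (h' : ∃ k : ℤ, θ' = θ'' + k * (2 * Real.pi)) : ∃ k : ℤ, θ = θ'' + k * (2 * Real.pi) := by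
  obtain ⟨k, rfl⟩ := h; obtain ⟨m, rfl⟩ := h'; exact ⟨m + k, by push_cast; ring⟩

variable {B}

theorem Cyl.Sees.congr {a b : W} {θ θ' : ℝ} (hs : B.Sees a b θ)
    (h : ∃ k : ℤ, θ = θ' + k * (2 * Real.pi)) : B.Sees a b θ' :=
  ⟨B.pres_congr h hs.1, B.pres_congr h hs.2.1, hs.2.2.1,
    fun c hc => hs.2.2.2 c (B.pres_congr (modsymm h) hc)⟩

theorem Cyl.Sees.hi_unique {a b b' : W} {θ : ℝ} (h : B.Sees a b θ) (h' : B.Sees a b' θ) : b = b' := by
  apply B.distinct b b' θ h.2.1 h'.2.1
  rcases lt_trichotomy (B.h b) (B.h b') with h1 | h1 | h1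
  · exact (h'.2.2.2 b h.2.1 h.2.2.1 h1).elim
  · exact h1
  · exact (h.2.2.2 b' h'.2.1 h'.2.2.1 h1).elim

theorem Cyl.Sees.lo_unique {a a' b : W} {θ : ℝ} (h : B.Sees a b θ) (h' : B.Sees a' b θ) : a = a' := by
  apply B.distinct a a' θ h.1 h'.1
  rcases lt_trichotomy (B.h a) (B.h a') with h1 | h1 | h1
  · exact (h.2.2.2 a' h'.1 h1 h'.2.2.1).elim
  · exact h1
  · exact (h'.2.2.2 a h.1 h1 h.2.2.1).elim

variable (B)

/-- a family of visibility segments, at most one for each pair -/
structure Edges (ι : Type) where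
  lo : ι → W
  hi : ι → W
  th : ι → ℝ
  sees : ∀ e, B.Sees (lo e) (hi e) (th e)
  uniq : ∀ e f, lo e = lo f → hi e = hi f → e = f

variable {B} {ι : Type} (E : Edges B ι)

theorem Edges.eq_of_lo {e f : ι} (h : E.lo e = E.lo f)
    (hθ : ∃ k : ℤ, E.th e = E.th f + k * (2 * Real.pi)) : e = f := by
  have h1 := (E.sees e).congr hθ
  rw [h] at h1
  exact E.uniq e f h (h1.hi_unique (E.sees f))

theorem Edges.eq_of_hi {e f : ι} (h : E.hi e = E.hi f)
    (hθ : ∃ k : ℤ, E.th e = E.th f + k * (2 * Real.pi)) : e = f := by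
  have h1 := (E.sees e).congr hθ
  rw [h] at h1
  exact E.uniq e f (h1.lo_unique (E.sees f)) h

theorem conv_mem {S : Set ℝ} (hS : S.OrdConnected) {c α s : ℝ} (hc : c ∈ S) (hα : α ∈ S)
    (hs : s ∈ Icc (0:ℝ) 1) : c + s * (α - c) ∈ S := by
  rcases le_total c α with h | h
  · apply hS.out hc hα
    constructor
    · nlinarith [hs.1, hs.2]
    · nlinarith [hs.1, hs.2]
  · apply hS.out hα hc
    constructor
    · nlinarith [hs.1, hs.2]
    · nlinarith [hs.1, hs.2]

theorem exists_delta [Finite W] (B : Cyl W) : ∃ δ > 0, ∀ w w', B.h w ≠ B.h w' → 2 * δ < |B.h w - B.h w'| := by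
  classical
  have : Fintype W := Fintype.ofFinite W
  set S : Finset ℝ := (Finset.univ.image fun p : W × W => |B.h p.1 - B.h p.2|).filter (0 < ·) with hS
  rcases S.eq_empty_or_nonempty with h | h
  · refine ⟨1, one_pos, ?_⟩
    intro w w' hw
    exfalso
    have : |B.h w - B.h w'| ∈ S := by
      rw [hS, Finset.mem_filter]
      exact ⟨Finset.mem_image.2 ⟨(w, w'), Finset.mem_univ _, rfl⟩, abs_pos.2 (sub_ne_zero.2 hw)⟩
    rw [h] at this
    simp at this
  · have h0 : 0 < S.min' h := by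
      have := S.min'_mem h
      exact (Finset.mem_filter.1 this).2
    refine ⟨S.min' h / 3, by positivity, ?_⟩
    intro w w' hw
    have : |B.h w - B.h w'| ∈ S := by
      rw [hS, Finset.mem_filter]
      exact ⟨Finset.mem_image.2 ⟨(w, w'), Finset.mem_univ _, rfl⟩, abs_pos.2 (sub_ne_zero.2 hw)⟩
    have := S.min'_le _ this
    linarith

/-- coordinates of the drawing of the edge `e` -/
def Piece (E : Edges B ι) (δ : ℝ) (c : W → ℝ) (α β : ι → ℝ) (e : ι) (t φ : ℝ) : Prop :=
  (∃ s ∈ Icc (0:ℝ) 1, t = B.h (E.lo e) + s * δ ∧ φ = c (E.lo e) + s * (α e - c (E.lo e))) ∨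
  (t ∈ Icc (B.h (E.lo e) + δ) (B.h (E.hi e) - δ) ∧ φ = E.th e) ∨
  (∃ s ∈ Icc (0:ℝ) 1, t = B.h (E.hi e) - s * δ ∧ φ = c (E.hi e) + s * (β e - c (E.hi e)))

theorem exists_drawing [Finite W] (E : Edges B ι) :
    ∃ (p : W → ℂ) (A : ι → Set ℂ), Function.Injective p ∧
      (∀ e, IsArc (A e) (p (E.lo e)) (p (E.hi e))) ∧
      (∀ e w, p w ∈ A e → w = E.lo e ∨ w = E.hi e) ∧
      (∀ e f, e ≠ f → ∀ z, z ∈ A e → z ∈ A f →
        ∃ w, (w = E.lo e ∨ w = E.hi e) ∧ (w = E.lo f ∨ w = E.hi f) ∧ z = p w) := by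
  classical
  obtain ⟨δ, hδ, hgap⟩ := exists_delta B
  choose c hc using B.nonempty
  have hα : ∀ e, ∃ α ∈ B.ang (E.lo e), ∃ k : ℤ, α = E.th e + k * (2 * Real.pi) := by
    intro e; obtain ⟨k, hk⟩ := (E.sees e).1; exact ⟨_, hk, k, rfl⟩
  have hβ : ∀ e, ∃ β ∈ B.ang (E.hi e), ∃ k : ℤ, β = E.th e + k * (2 * Real.pi) := by
    intro e; obtain ⟨k, hk⟩ := (E.sees e).2.1; exact ⟨_, hk, k, rfl⟩
  choose α hαm hαt using hα
  choose β hβm hβt using hβ
  have hgap' : ∀ w w' : W, |B.h w - B.h w'| ≤ 2 * δ → B.h w = B.h w' := by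
    intro w w' h
    by_contra hne
    exact absurd (hgap w w' hne) (not_lt.2 h)
  have hlt : ∀ e, B.h (E.lo e) + δ < B.h (E.hi e) - δ := by
    intro e
    have h1 := (E.sees e).2.2.1
    have h2 := hgap (E.lo e) (E.hi e) h1.ne
    rw [abs_sub_comm, abs_of_pos (by linarith)] at h2
    linarith
  set p : W → ℂ := fun w => EE (B.h w) (c w) with hp
  set A1 : ι → Set ℂ := fun e => (fun s : ℝ => EE (B.h (E.lo e) + s * δ)
    (c (E.lo e) + s * (α e - c (E.lo e)))) '' Icc 0 1 with hA1
  set A2 : ι → Set ℂ := fun e => (fun s : ℝ => EE ((B.h (E.lo e) + δ) + s *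
    ((B.h (E.hi e) - δ) - (B.h (E.lo e) + δ))) (E.th e)) '' Icc 0 1 with hA2
  set A3 : ι → Set ℂ := fun e => (fun s : ℝ => EE (B.h (E.hi e) - s * δ)
    (c (E.hi e) + s * (β e - c (E.hi e)))) '' Icc 0 1 with hA3
  set A : ι → Set ℂ := fun e => (A1 e ∪ A2 e) ∪ A3 e with hA
  have hmem : ∀ e z, z ∈ A e → ∃ t φ, z = EE t φ ∧ Piece E δ c α β e t φ := by
    intro e z hz
    rcases hz with (⟨s, hs, rfl⟩ | ⟨s, hs, rfl⟩) | ⟨s, hs, rfl⟩
    · exact ⟨_, _, rfl, Or.inl ⟨s, hs, rfl, rfl⟩⟩
    · refine ⟨_, _, rfl, Or.inr (Or.inl ⟨?_, rfl⟩)⟩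
      have := hlt e
      constructor <;> nlinarith [hs.1, hs.2]
    · exact ⟨_, _, rfl, Or.inr (Or.inr ⟨s, hs, rfl, rfl⟩)⟩
  -- a bar of a height in the band of another bar
  have loc : ∀ {w w' : W} {s s' : ℝ}, s ∈ Icc (0:ℝ) 1 → s' ∈ Icc (0:ℝ) 1 →
      (B.h w + s * δ = B.h w' + s' * δ ∨ B.h w + s * δ = B.h w' - s' * δ ∨
       B.h w - s * δ = B.h w' + s' * δ ∨ B.h w - s * δ = B.h w' - s' * δ) → B.h w = B.h w' := by
    intro w w' s s' hs hs' h
    apply hgap'
    rw [abs_le]
    rcases h with h | h | h | h <;> constructor <;> nlinarith [hs.1, hs.2, hs'.1, hs'.2]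
  have cmem : ∀ {w : W} {γ s : ℝ}, γ ∈ B.ang w → s ∈ Icc (0:ℝ) 1 → c w + s * (γ - c w) ∈ B.ang w :=
    fun hγ hs => conv_mem (B.conn _) (hc _) hγ hs
  have cinj : ∀ {w : W} {γ γ' s : ℝ}, γ ∈ B.ang w → γ' ∈ B.ang w → s ∈ Icc (0:ℝ) 1 →
      (∃ k : ℤ, c w + s * (γ - c w) = c w + s * (γ' - c w) + k * (2 * Real.pi)) → s = 0 ∨ γ = γ' := by
    intro w γ γ' s hγ hγ' hs ⟨k, hk⟩
    have h0 := B.simple w _ (cmem hγ hs) _ (cmem hγ' hs) k hk
    rw [h0] at hk
    have : s * (γ - γ') = 0 := by push_cast at hk; linarith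
    rcases mul_eq_zero.1 this with h | h
    · exact Or.inl h
    · exact Or.inr (by linarith)
  have pinj : Function.Injective p := by
    intro w w' h
    obtain ⟨h1, k, hk⟩ := EE_eq.1 h
    exact B.distinct w w' (c w') (B.pres_congr ⟨k, hk⟩ (B.pres_of_mem (hc w)))
      (B.pres_of_mem (hc w')) h1
  refine ⟨p, A, pinj, ?_, ?_, ?_⟩
  · -- arcs
    intro e
    have hl := hlt e
    have a1 : IsArc (A1 e) (p (E.lo e)) (EE (B.h (E.lo e) + δ) (E.th e)) := by
      have := isArc_image (f := fun s : ℝ => EE (B.h (E.lo e) + s * δ)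
        (c (E.lo e) + s * (α e - c (E.lo e)))) (continuous_EE (by fun_prop) (by fun_prop)) (by
          intro s hs s' hs' h
          obtain ⟨h1, -⟩ := EE_eq.1 h
          have : (s - s') * δ = 0 := by linarith
          rcases mul_eq_zero.1 this with h | h
          · linarith
          · exact absurd h hδ.ne')
      convert this using 1
      · simp [hp]
      · rw [EE_eq]; refine ⟨by ring, ?_⟩
        obtain ⟨k, hk⟩ := modsymm (hαt e)
        exact ⟨k, by rw [hk]; ring⟩
    have a2 : IsArc (A2 e) (EE (B.h (E.lo e) + δ) (E.th e)) (EE (B.h (E.hi e) - δ) (E.th e)) := by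
      have := isArc_image (f := fun s : ℝ => EE ((B.h (E.lo e) + δ) + s *
        ((B.h (E.hi e) - δ) - (B.h (E.lo e) + δ))) (E.th e))
        (continuous_EE (by fun_prop) (by fun_prop)) (by
          intro s hs s' hs' h
          obtain ⟨h1, -⟩ := EE_eq.1 h
          have : (s - s') * ((B.h (E.hi e) - δ) - (B.h (E.lo e) + δ)) = 0 := by linarith
          rcases mul_eq_zero.1 this with h | h
          · linarith
          · linarith)
      convert this using 1
      · simp
      · congr 1; ring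
    have a3 : IsArc (A3 e) (p (E.hi e)) (EE (B.h (E.hi e) - δ) (E.th e)) := by
      have := isArc_image (f := fun s : ℝ => EE (B.h (E.hi e) - s * δ)
        (c (E.hi e) + s * (β e - c (E.hi e)))) (continuous_EE (by fun_prop) (by fun_prop)) (by
          intro s hs s' hs' h
          obtain ⟨h1, -⟩ := EE_eq.1 h
          have : (s - s') * δ = 0 := by linarith
          rcases mul_eq_zero.1 this with h | h
          · linarith
          · exact absurd h hδ.ne')
      convert this using 1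
      · simp [hp]
      · rw [EE_eq]; refine ⟨by ring, ?_⟩
        obtain ⟨k, hk⟩ := modsymm (hβt e)
        exact ⟨k, by rw [hk]; ring⟩
    refine (a1.trans a2 ?_).trans a3.symm ?_
    · rintro w ⟨s, hs, rfl⟩ ⟨s', hs', h⟩
      obtain ⟨h1, h2⟩ := EE_eq.1 h
      have h3 : 1 ≤ s := by
        by_contra hcon
        push Not at hcon
        have : s * δ < 1 * δ := mul_lt_mul_of_pos_right hcon hδ
        nlinarith [hs'.1, hs'.2]
      have h4 : s = 1 := le_antisymm hs.2 h3
      subst h4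
      simp only
      rw [EE_eq]
      refine ⟨by ring, ?_⟩
      obtain ⟨k, hk⟩ := hαt e
      exact ⟨k, by rw [hk]; ring⟩
    · rintro w hw ⟨s', hs', h⟩
      have hle : ∀ t φ, w = EE t φ → t ≤ B.h (E.hi e) - δ := by
        intro t φ hw'
        rcases hw with ⟨s, hs, h5⟩ | ⟨s, hs, h5⟩
        · rw [← h5] at hw'
          obtain ⟨h6, -⟩ := EE_eq.1 hw'
          rw [← h6]
          nlinarith [hs.1, hs.2]
        · rw [← h5] at hw'
          obtain ⟨h6, -⟩ := EE_eq.1 hw'
          rw [← h6]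
          nlinarith [hs.1, hs.2]
      have h7 := hle _ _ h.symm
      have h3 : 1 ≤ s' := by
        by_contra hcon
        push Not at hcon
        have : s' * δ < 1 * δ := mul_lt_mul_of_pos_right hcon hδ
        nlinarith [hs'.1, hs'.2]
      have h4 : s' = 1 := le_antisymm hs'.2 h3
      subst h4
      rw [← h]
      simp only
      rw [EE_eq]
      refine ⟨by ring, ?_⟩
      obtain ⟨k, hk⟩ := hβt e
      exact ⟨k, by rw [hk]; ring⟩
  · -- vertices on arcs
    intro e w hw
    obtain ⟨t, φ, hz, hP⟩ := hmem e _ hw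
    obtain ⟨h1, h2⟩ := EE_eq.1 hz
    have hwp : B.Pres w φ := B.pres_congr h2 (B.pres_of_mem (hc w))
    rcases hP with ⟨s, hs, ht, hφ⟩ | ⟨ht, hφ⟩ | ⟨s, hs, ht, hφ⟩
    · left
      have hh : B.h w = B.h (E.lo e) := loc (s := 0) (s' := s) (by simp) hs (Or.inl (by linarith))
      refine B.distinct w (E.lo e) φ hwp (B.pres_of_mem ?_) hh
      rw [hφ]; exact cmem (hαm e) hs
    · exfalso
      rw [hφ] at hwp
      exact (E.sees e).2.2.2 w hwp (by linarith [ht.1]) (by linarith [ht.2])
    · right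
      have hh : B.h w = B.h (E.hi e) := loc (s := 0) (s' := s) (by simp) hs
        (Or.inr (Or.inl (by linarith)))
      refine B.distinct w (E.hi e) φ hwp (B.pres_of_mem ?_) hh
      rw [hφ]; exact cmem (hβm e) hs
  · -- two arcs
    intro e f hef z hze hzf
    obtain ⟨t, φ, hz, hP⟩ := hmem e _ hze
    obtain ⟨t', φ', hz', hP'⟩ := hmem f _ hzf
    rw [hz] at hz'
    obtain ⟨htt, hφφ⟩ := EE_eq.1 hz'
    subst htt
    -- angle of e equals the angle of f is impossible with a common lower or upper end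
    rcases hP with ⟨s, hs, ht, hφ⟩ | ⟨ht, hφ⟩ | ⟨s, hs, ht, hφ⟩
    · have hpe : B.Pres (E.lo e) φ' := B.pres_congr hφφ (B.pres_of_mem (by rw [hφ]; exact cmem (hαm e) hs))
      rcases hP' with ⟨s', hs', ht', hφ'⟩ | ⟨ht', hφ'⟩ | ⟨s', hs', ht', hφ'⟩
      · -- lo lo
        have hh : B.h (E.lo e) = B.h (E.lo f) := loc hs hs' (Or.inl (by linarith))
        have hE := B.distinct _ _ φ' hpe (B.pres_of_mem (by rw [hφ']; exact cmem (hαm f) hs')) hh
        have hss : s = s' := by
          have : (s - s') * δ = 0 := by linarith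
          rcases mul_eq_zero.1 this with h | h
          · linarith
          · exact absurd h hδ.ne'
        subst hss
        refine ⟨E.lo e, Or.inl rfl, Or.inl hE, ?_⟩
        rw [hφ, hφ', ← hE] at hφφ
        rcases cinj (hαm e) (by rw [hE]; exact hαm f) hs hφφ with h0 | h0
        · rw [hz, ht, hφ, h0]; simp [hp]
        · exfalso
          apply hef
          apply E.eq_of_lo hE
          have := modtrans (modsymm (hαt e)) (h0 ▸ hαt f)
          exact this
      · -- lo mid
        exfalso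
        rw [hφ'] at hpe
        have h1 : B.h (E.lo e) < B.h (E.hi f) := by nlinarith [hs.1, hs.2, ht'.2]
        have h2 : B.h (E.lo f) ≤ B.h (E.lo e) := by nlinarith [hs.1, hs.2, ht'.1]
        have h3 : B.h (E.lo e) = B.h (E.lo f) := by
          rcases eq_or_lt_of_le h2 with h | h
          · exact h.symm
          · exact ((E.sees f).2.2.2 _ hpe h h1).elim
        have hE := B.distinct _ _ _ hpe (E.sees f).1 h3
        have h4 : 1 ≤ s := by
          by_contra hcon
          push Not at hcon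
          have : s * δ < 1 * δ := mul_lt_mul_of_pos_right hcon hδ
          linarith [ht'.1]
        have h5 : s = 1 := le_antisymm hs.2 h4
        subst h5
        apply hef
        apply E.eq_of_lo hE
        have h6 : φ = α e := by rw [hφ]; ring
        rw [h6, hφ'] at hφφ
        exact modtrans (modsymm (hαt e)) hφφ
      · -- lo hi
        have hh : B.h (E.lo e) = B.h (E.hi f) := loc hs hs' (Or.inr (Or.inl (by linarith)))
        have hE := B.distinct _ _ φ' hpe (B.pres_of_mem (by rw [hφ']; exact cmem (hβm f) hs')) hh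
        refine ⟨E.lo e, Or.inl rfl, Or.inr hE, ?_⟩
        have h0 : s = 0 := by
          have h1 : (s + s') * δ = 0 := by linarith
          rcases mul_eq_zero.1 h1 with h | h
          · linarith [hs.1, hs'.1]
          · exact absurd h hδ.ne'
        rw [hz, ht, hφ, h0]; simp [hp]
    · rcases hP' with ⟨s', hs', ht', hφ'⟩ | ⟨ht', hφ'⟩ | ⟨s', hs', ht', hφ'⟩
      · -- mid lo
        exfalso
        have hpf : B.Pres (E.lo f) φ := B.pres_congr (modsymm hφφ)
          (B.pres_of_mem (by rw [hφ']; exact cmem (hαm f) hs'))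
        rw [hφ] at hpf
        have h1 : B.h (E.lo f) < B.h (E.hi e) := by nlinarith [hs'.1, hs'.2, ht.2]
        have h2 : B.h (E.lo e) ≤ B.h (E.lo f) := by nlinarith [hs'.1, hs'.2, ht.1]
        have h3 : B.h (E.lo f) = B.h (E.lo e) := by
          rcases eq_or_lt_of_le h2 with h | h
          · exact h.symm
          · exact ((E.sees e).2.2.2 _ hpf h h1).elim
        have hE := B.distinct _ _ _ hpf (E.sees e).1 h3
        have h4 : 1 ≤ s' := by
          by_contra hcon
          push Not at hcon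
          have : s' * δ < 1 * δ := mul_lt_mul_of_pos_right hcon hδ
          linarith [ht.1]
        have h5 : s' = 1 := le_antisymm hs'.2 h4
        subst h5
        apply hef
        apply E.eq_of_lo hE.symm
        have h6 : φ' = α f := by rw [hφ']; ring
        rw [h6, hφ] at hφφ
        exact modtrans hφφ (hαt f)
      · -- mid mid
        exfalso
        rw [hφ, hφ'] at hφφ
        apply hef
        have se := (E.sees e).congr hφφ
        have sf := E.sees f
        have h1 : B.h (E.lo e) ≤ B.h (E.lo f) := by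
          by_contra hcon
          push Not at hcon
          exact sf.2.2.2 _ se.1 hcon (by linarith [ht.1, ht'.2])
        have h2 : B.h (E.lo f) ≤ B.h (E.lo e) := by
          by_contra hcon
          push Not at hcon
          exact se.2.2.2 _ sf.1 hcon (by linarith [ht'.1, ht.2])
        exact E.eq_of_lo (B.distinct _ _ _ se.1 sf.1 (le_antisymm h1 h2)) hφφ
      · -- mid hi
        exfalso
        have hpf : B.Pres (E.hi f) φ := B.pres_congr (modsymm hφφ)
          (B.pres_of_mem (by rw [hφ']; exact cmem (hβm f) hs'))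
        rw [hφ] at hpf
        have h1 : B.h (E.lo e) < B.h (E.hi f) := by nlinarith [hs'.1, hs'.2, ht.1]
        have h2 : B.h (E.hi f) ≤ B.h (E.hi e) := by nlinarith [hs'.1, hs'.2, ht.2]
        have h3 : B.h (E.hi f) = B.h (E.hi e) := by
          rcases eq_or_lt_of_le h2 with h | h
          · exact h
          · exact ((E.sees e).2.2.2 _ hpf h1 h).elim
        have hE := B.distinct _ _ _ hpf (E.sees e).2.1 h3
        have h4 : 1 ≤ s' := by
          by_contra hcon
          push Not at hcon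
          have : s' * δ < 1 * δ := mul_lt_mul_of_pos_right hcon hδ
          linarith [ht.2]
        have h5 : s' = 1 := le_antisymm hs'.2 h4
        subst h5
        apply hef
        apply E.eq_of_hi hE.symm
        have h6 : φ' = β f := by rw [hφ']; ring
        rw [h6, hφ] at hφφ
        exact modtrans hφφ (hβt f)
    · have hpe : B.Pres (E.hi e) φ' := B.pres_congr hφφ (B.pres_of_mem (by rw [hφ]; exact cmem (hβm e) hs))
      rcases hP' with ⟨s', hs', ht', hφ'⟩ | ⟨ht', hφ'⟩ | ⟨s', hs', ht', hφ'⟩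
      · -- hi lo
        have hh : B.h (E.hi e) = B.h (E.lo f) := loc hs hs' (Or.inr (Or.inr (Or.inl (by linarith))))
        have hE := B.distinct _ _ φ' hpe (B.pres_of_mem (by rw [hφ']; exact cmem (hαm f) hs')) hh
        refine ⟨E.hi e, Or.inr rfl, Or.inl hE, ?_⟩
        have h0 : s = 0 := by
          have h1 : (s + s') * δ = 0 := by linarith
          rcases mul_eq_zero.1 h1 with h | h
          · linarith [hs.1, hs'.1]
          · exact absurd h hδ.ne'
        rw [hz, ht, hφ, h0]; simp [hp]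
      · -- hi mid
        exfalso
        rw [hφ'] at hpe
        have h1 : B.h (E.lo f) < B.h (E.hi e) := by nlinarith [hs.1, hs.2, ht'.1]
        have h2 : B.h (E.hi e) ≤ B.h (E.hi f) := by nlinarith [hs.1, hs.2, ht'.2]
        have h3 : B.h (E.hi e) = B.h (E.hi f) := by
          rcases eq_or_lt_of_le h2 with h | h
          · exact h
          · exact ((E.sees f).2.2.2 _ hpe h1 h).elim
        have hE := B.distinct _ _ _ hpe (E.sees f).2.1 h3
        have h4 : 1 ≤ s := by
          by_contra hcon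
          push Not at hcon
          have : s * δ < 1 * δ := mul_lt_mul_of_pos_right hcon hδ
          linarith [ht'.2]
        have h5 : s = 1 := le_antisymm hs.2 h4
        subst h5
        apply hef
        apply E.eq_of_hi hE
        have h6 : φ = β e := by rw [hφ]; ring
        rw [h6, hφ'] at hφφ
        exact modtrans (modsymm (hβt e)) hφφ
      · -- hi hi
        have hh : B.h (E.hi e) = B.h (E.hi f) := loc hs hs' (Or.inr (Or.inr (Or.inr (by linarith))))
        have hE := B.distinct _ _ φ' hpe (B.pres_of_mem (by rw [hφ']; exact cmem (hβm f) hs')) hh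
        have hss : s = s' := by
          have : (s - s') * δ = 0 := by linarith
          rcases mul_eq_zero.1 this with h | h
          · linarith
          · exact absurd h hδ.ne'
        subst hss
        refine ⟨E.hi e, Or.inr rfl, Or.inr hE, ?_⟩
        rw [hφ, hφ', ← hE] at hφφ
        rcases cinj (hβm e) (by rw [hE]; exact hβm f) hs hφφ with h0 | h0
        · rw [hz, ht, hφ, h0]; simp [hp]
        · exfalso
          apply hef
          apply E.eq_of_hi hE
          exact modtrans (modsymm (hβt e)) (h0 ▸ hβt f)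

end Pool.Agent.helper68.Arcs
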