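import Pool.Agent.helper68.Arcs.Cover
/-! Every arc visibility graph is the union of two planar graphs. -/
namespace Pool.Agent.helper68.Arcs
open Set

variable {V : Type} [Finite V] {R : ArcRep V}

section planar
variable {p : V × Bool → ℂ} {A : (R.visGraph 0).edgeSet × Bool → Set ℂ}

theorem sec_inj {σ : V → V × Bool} (hσ : ∀ v, (σ v).1 = v) : Function.Injective σ := by
  intro u v h; rw [← hσ u, h, hσ v]

/-- a subgraph of a section of the double cover is planar -/
theorem section_planar (D : Drawing (edg R) p A) (σ : V → V × Bool) (hσ : ∀ v, (σ v).1 = v)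
    (H : SimpleGraph V) (hH : ∀ u v, H.Adj u v → GA R (σ u) (σ v)) : Planar H := by
  have hi := sec_inj hσ
  set S : Sym2 V → Set ((R.visGraph 0).edgeSet × Bool) :=
    fun e => {ε | ∃ u v, e = s(u, v) ∧ (edg R).Ends ε (σ u) (σ v)} with hS
  have hSm : ∀ e ε, ε ∈ S e → s((edg R).lo ε, (edg R).hi ε) = e.map σ := by
    rintro e ε ⟨u, v, rfl, h⟩
    rcases h with ⟨h1, h2⟩ | ⟨h1, h2⟩
    · rw [h1, h2]; rfl
    · rw [h1, h2, Sym2.eq_swap]; rfl
  refine D.route H σ hi S ?_ ?_ ?_ ?_
  · intro u v huv
    obtain ⟨ε, hε⟩ := hH u v huv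
    have : (⋃ ε ∈ S s(u, v), A ε) = A ε := by
      have : S s(u, v) = {ε} := by
        ext ε'
        simp only [mem_singleton_iff]
        constructor
        · rintro ⟨u', v', he, h⟩
          rw [Sym2.eq_iff] at he
          rcases he with ⟨rfl, rfl⟩ | ⟨rfl, rfl⟩
          · exact h.unique hε
          · exact h.symm.unique hε
        · rintro rfl; exact ⟨u, v, rfl, hε⟩
      rw [this]; simp
    rw [this]
    exact D.arc' hε
  · rintro e he f hf hef ε hε hε'
    apply hef
    have h1 := hSm e ε hε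
    have h2 := hSm f ε hε'
    exact Sym2.map.injective hi (h1.symm.trans h2)
  · rintro e he f hf hef ε ⟨u, v, rfl, h⟩ ε' ⟨u', v', rfl, h'⟩ w hw hw'
    rcases Edges.ends_of h hw with h1 | h1 <;> rcases Edges.ends_of h' hw' with h2 | h2
    · exact ⟨u, by simp, by rw [← hi (h1.symm.trans h2)|>.symm]; simp, h1⟩
    · exact ⟨u, by simp, by rw [hi (h1.symm.trans h2)]; simp, h1⟩
    · exact ⟨v, by simp, by rw [hi (h1.symm.trans h2)]; simp, h1⟩
    · exact ⟨v, by simp, by rw [hi (h1.symm.trans h2)]; simp, h1⟩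
  · rintro e he ε ⟨u, v, rfl, h⟩ x hx
    rcases Edges.ends_of h hx with h1 | h1
    · rw [hi h1]; simp
    · rw [hi h1]; simp

/-- the same with one extra edge routed along a path outside the section -/
theorem section_planar' (D : Drawing (edg R) p A) (σ : V → V × Bool) (hσ : ∀ v, (σ v).1 = v)
    (H : SimpleGraph V) (x y : V) (hH : ∀ u v, H.Adj u v → s(u, v) ≠ s(x, y) → GA R (σ u) (σ v))
    (q : ℕ → V × Bool) (L : ℕ) (hL : 1 ≤ L)
    (hinj : ∀ i j, i ≤ L + 1 → j ≤ L + 1 → q i = q j → i = j)
    (hadj : ∀ i, i ≤ L → GA R (q i) (q (i + 1))) (hx : q 0 = σ x) (hy : q (L + 1) = σ y)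
    (hint : ∀ i, 1 ≤ i → i ≤ L → ∀ v, q i ≠ σ v) : Planar H := by
  classical
  have hi := sec_inj hσ
  have : ∀ i, ∃ ε, i ≤ L → (edg R).Ends ε (q i) (q (i + 1)) := by
    intro i
    by_cases h : i ≤ L
    · obtain ⟨ε, hε⟩ := hadj i h; exact ⟨ε, fun _ => hε⟩
    · obtain ⟨ε, _⟩ := hadj 0 (by omega); exact ⟨ε, fun h' => absurd h' h⟩
  choose ε₀ hε₀ using this
  set S : Sym2 V → Set ((R.visGraph 0).edgeSet × Bool) :=
    fun e => if e = s(x, y) then ε₀ '' {i | i ≤ L} else {ε | ∃ u v, e = s(u, v) ∧ (edg R).Ends ε (σ u) (σ v)} with hS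
  have hS0 : S s(x, y) = ε₀ '' {i | i ≤ L} := by simp only [hS, if_pos]
  have hS1 : ∀ e, e ≠ s(x, y) → S e = {ε | ∃ u v, e = s(u, v) ∧ (edg R).Ends ε (σ u) (σ v)} := by
    intro e he; simp only [hS, if_neg he]
  have hSm : ∀ e ε, e ≠ s(x, y) → ε ∈ S e → s((edg R).lo ε, (edg R).hi ε) = e.map σ := by
    rintro e ε he hε
    rw [hS1 e he] at hε
    obtain ⟨u, v, rfl, h⟩ := hε
    rcases h with ⟨h1, h2⟩ | ⟨h1, h2⟩
    · rw [h1, h2]; rfl
    · rw [h1, h2, Sym2.eq_swap]; rfl
  have hrng : ∀ i, i ≤ L + 1 → ∀ v, q i = σ v → v = x ∨ v = y := by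
    intro i hi' v h
    rcases Nat.eq_zero_or_pos i with h0 | h0
    · subst h0; exact Or.inl (hi (h.symm.trans hx))
    · rcases Nat.lt_or_ge L i with h1 | h1
      · have : i = L + 1 := by omega
        subst this; exact Or.inr (hi (h.symm.trans hy))
      · exact absurd h (hint i h0 h1 v)
  -- a path edge has an end outside the section
  have hout : ∀ i, i ≤ L → ∀ u v, ¬ (edg R).Ends (ε₀ i) (σ u) (σ v) := by
    intro i hiL u v h
    have h1 := hε₀ i hiL
    rcases Nat.eq_zero_or_pos i with h0 | h0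
    · subst h0
      rcases h1.eq_cases h with ⟨-, h2⟩ | ⟨-, h2⟩
      · exact hint 1 le_rfl hL _ h2
      · exact hint 1 le_rfl hL _ h2
    · rcases h1.eq_cases h with ⟨h2, -⟩ | ⟨h2, -⟩
      · exact hint i h0 hiL _ h2
      · exact hint i h0 hiL _ h2
  refine D.route H σ hi S ?_ ?_ ?_ ?_
  · intro u v huv
    by_cases he : s(u, v) = s(x, y)
    · rw [he, hS0]
      have hU : (⋃ ε ∈ ε₀ '' {i | i ≤ L}, A ε) = ⋃ i ∈ {i | i ≤ L}, A (ε₀ i) := by
        rw [biUnion_image]
      have hp := D.path q ε₀ L hinj hε₀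
      rw [hU]
      rw [hx, hy] at hp
      rw [Sym2.eq_iff] at he
      rcases he with ⟨rfl, rfl⟩ | ⟨rfl, rfl⟩
      · exact hp
      · exact hp.symm
    · obtain ⟨ε, hε⟩ := hH u v huv he
      have : (⋃ ε ∈ S s(u, v), A ε) = A ε := by
        have : S s(u, v) = {ε} := by
          rw [hS1 _ he]
          ext ε'
          simp only [mem_singleton_iff]
          constructor
          · rintro ⟨u', v', he, h⟩
            rw [Sym2.eq_iff] at he
            rcases he with ⟨rfl, rfl⟩ | ⟨rfl, rfl⟩
            · exact h.unique hε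
            · exact h.symm.unique hε
          · rintro rfl; exact ⟨u, v, rfl, hε⟩
        rw [this]; simp
      rw [this]
      exact D.arc' hε
  · rintro e he f hf hef ε hε hε'
    by_cases h1 : e = s(x, y)
    · have h2 : f ≠ s(x, y) := fun h => hef (h1.trans h.symm)
      rw [h1, hS0] at hε
      obtain ⟨i, hiL, rfl⟩ := hε
      rw [hS1 f h2] at hε'
      obtain ⟨u, v, -, h3⟩ := hε'
      exact hout i hiL u v h3
    · by_cases h2 : f = s(x, y)
      · rw [h2, hS0] at hε'
        obtain ⟨i, hiL, rfl⟩ := hε'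
        rw [hS1 e h1] at hε
        obtain ⟨u, v, -, h3⟩ := hε
        exact hout i hiL u v h3
      · apply hef
        have h3 := hSm e ε h1 hε
        have h4 := hSm f ε h2 hε'
        exact Sym2.map.injective hi (h3.symm.trans h4)
  · rintro e he f hf hef ε hε ε' hε' w hw hw'
    -- the mixed case
    have mixed : ∀ f : Sym2 V, f ≠ s(x, y) → ∀ i, i ≤ L → ∀ ε', ε' ∈ S f →
        (w = (edg R).lo (ε₀ i) ∨ w = (edg R).hi (ε₀ i)) → (w = (edg R).lo ε' ∨ w = (edg R).hi ε') →
        ∃ v, v ∈ s(x, y) ∧ v ∈ f ∧ w = σ v := by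
      intro f hf i hiL ε' hε' hw hw'
      rw [hS1 f hf] at hε'
      obtain ⟨u, v, rfl, h3⟩ := hε'
      have h4 : ∃ j, j ≤ L + 1 ∧ w = q j := by
        rcases Edges.ends_of (hε₀ i hiL) hw with h | h
        · exact ⟨i, by omega, h⟩
        · exact ⟨i + 1, by omega, h⟩
      obtain ⟨j, hj, hwj⟩ := h4
      rcases Edges.ends_of h3 hw' with h | h
      · refine ⟨u, ?_, by simp, h⟩
        rcases hrng j hj u (hwj.symm.trans h) with h | h <;> rw [h] <;> simp
      · refine ⟨v, ?_, by simp, h⟩
        rcases hrng j hj v (hwj.symm.trans h) with h | h <;> rw [h] <;> simp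
    by_cases h1 : e = s(x, y)
    · have h2 : f ≠ s(x, y) := fun h => hef (h1.trans h.symm)
      rw [h1, hS0] at hε
      obtain ⟨i, hiL, rfl⟩ := hε
      rw [h1]
      exact mixed f h2 i hiL ε' hε' hw hw'
    · by_cases h2 : f = s(x, y)
      · rw [h2, hS0] at hε'
        obtain ⟨i, hiL, rfl⟩ := hε'
        rw [h2]
        obtain ⟨v, hv, hv', h⟩ := mixed e h1 i hiL ε hε hw' hw
        exact ⟨v, hv', hv, h⟩
      · rw [hS1 e h1] at hε
        rw [hS1 f h2] at hε'
        obtain ⟨u, v, rfl, h⟩ := hε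
        obtain ⟨u', v', rfl, h'⟩ := hε'
        rcases Edges.ends_of h hw with h1 | h1 <;> rcases Edges.ends_of h' hw' with h2 | h2
        · exact ⟨u, by simp, by rw [hi (h1.symm.trans h2)]; simp, h1⟩
        · exact ⟨u, by simp, by rw [hi (h1.symm.trans h2)]; simp, h1⟩
        · exact ⟨v, by simp, by rw [hi (h1.symm.trans h2)]; simp, h1⟩
        · exact ⟨v, by simp, by rw [hi (h1.symm.trans h2)]; simp, h1⟩
  · rintro e he ε hε v hv
    by_cases h1 : e = s(x, y)
    · rw [h1, hS0] at hε
      obtain ⟨i, hiL, rfl⟩ := hε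
      rw [h1]
      rcases Edges.ends_of (hε₀ i hiL) hv with h | h
      · rcases hrng i (le_trans hiL (by omega)) v h.symm with h | h <;> rw [h] <;> simp
      · have hiL' : i ≤ L := hiL
        rcases hrng (i + 1) (by omega) v h.symm with h | h <;> rw [h] <;> simp
    · rw [hS1 e h1] at hε
      obtain ⟨u, v', rfl, h⟩ := hε
      rcases Edges.ends_of h hv with h1 | h1
      · rw [hi h1]; simp
      · rw [hi h1]; simp

end planar

/-- a closed walk that changes the sheet, of length n -/
def Odd' (R : ArcRep V) (n : ℕ) : Prop :=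
  ∃ r : ℕ → V × Bool, (∀ i < n, GA R (r i) (r (i + 1))) ∧ r n = deckMap (r 0)

theorem iter_add (a : ℕ) (w : V × Bool) : deckMap^[a + 1] w = deckMap (deckMap^[a] w) :=
  Function.iterate_succ_apply' _ _ _

theorem iter_fst (a : ℕ) (w : V × Bool) : (deckMap^[a] w).1 = w.1 := by
  induction a with
  | zero => rfl
  | succ a ih => rw [iter_add]; exact ih

theorem iter_even {a b : ℕ} {w : V × Bool} (h : deckMap^[a] w = deckMap^[b] w) : a % 2 = b % 2 := by
  have key : ∀ a, deckMap^[a] w = if a % 2 = 0 then w else deckMap w := by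
    intro a
    induction a with
    | zero => simp
    | succ a ih =>
      rw [iter_add, ih]
      rcases Nat.mod_two_eq_zero_or_one a with h | h
      · rw [if_pos h, if_neg (by omega)]
      · rw [if_neg (by omega), if_pos (by omega), deckMap_inv]
  rw [key a, key b] at h
  split_ifs at h with h1 h2 h2
  · omega
  · exact absurd h.symm (deckMap_ne w)
  · exact absurd h (deckMap_ne w)
  · omega

theorem GA.iter {w w' : V × Bool} (h : GA R w w') (a : ℕ) : GA R (deckMap^[a] w) (deckMap^[a] w') := by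
  induction a with
  | zero => exact h
  | succ a ih => rw [iter_add, iter_add]; exact ih.deck

theorem eq_or_deck {w w' : V × Bool} (h : w.1 = w'.1) : w' = w ∨ w' = deckMap w := by
  obtain ⟨v, b⟩ := w
  obtain ⟨v', b'⟩ := w'
  simp only at h
  subst h
  cases b <;> cases b' <;> simp [deckMap]

theorem two_planar (R : ArcRep V) : ∃ G₁ G₂ : SimpleGraph V, Planar G₁ ∧ Planar G₂ ∧
    R.visGraph 0 = G₁ ⊔ G₂ := by
  classical
  obtain ⟨p, A, d1, d2, d3, d4⟩ := exists_drawing (edg R)
  have D : Drawing (edg R) p A := ⟨d1, d2, d3, d4⟩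
  by_cases hodd : ∃ n, Odd' R n
  swap
  · -- the balanced case
    set GG : SimpleGraph (V × Bool) :=
      { Adj := GA R
        symm := ⟨fun _ _ h => h.symm⟩
        loopless := ⟨fun w h => (h.adj).ne rfl⟩ } with hGG
    have hnr : ∀ w, ¬ GG.Reachable w (deckMap w) := by
      intro w h
      obtain ⟨W⟩ := h
      apply hodd
      refine ⟨W.length, W.getVert, fun i hi => W.adj_getVert_succ hi, ?_⟩
      simp
    have hlift : ∀ u v, (R.visGraph 0).Reachable u v → ∀ w : V × Bool, w.1 = u →
        ∃ w', w'.1 = v ∧ GG.Reachable w w' := by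
      rintro u v ⟨W⟩
      induction W with
      | nil => intro w hw; exact ⟨w, hw, SimpleGraph.Reachable.refl _⟩
      | cons h W ih =>
        intro w hw
        obtain ⟨w₁, hw₁, h₁⟩ := GA.lift h hw
        obtain ⟨w₂, hw₂, h₂⟩ := ih w₁ hw₁
        exact ⟨w₂, hw₂, (SimpleGraph.Adj.reachable (G := GG) h₁).trans h₂⟩
    set rep : V → V × Bool := fun v => (((R.visGraph 0).connectedComponentMk v).out, true) with hrep
    have hex : ∀ v, ∃ w : V × Bool, w.1 = v ∧ GG.Reachable (rep v) w := by
      intro v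
      have h1 : (R.visGraph 0).Reachable (rep v).1 v := by
        have : (R.visGraph 0).connectedComponentMk (rep v).1 = (R.visGraph 0).connectedComponentMk v :=
          Quot.out_eq _
        exact SimpleGraph.ConnectedComponent.exact this
      exact hlift _ _ h1 (rep v) rfl
    choose σ hσ hσr using hex
    refine ⟨R.visGraph 0, ⊥, section_planar D σ hσ _ ?_, section_planar D σ hσ ⊥ (by simp), by simp⟩
    intro u v huv
    obtain ⟨w, hw, hGA⟩ := GA.lift huv (hσ u)
    have hru : rep u = rep v := by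
      simp only [hrep]
      rw [SimpleGraph.ConnectedComponent.sound huv.reachable]
    have h1 : GG.Reachable (rep v) w := by
      rw [← hru]
      exact (hσr u).trans (SimpleGraph.Adj.reachable (G := GG) hGA)
    rcases eq_or_deck (show (σ v).1 = w.1 by rw [hσ, hw]) with h | h
    · rwa [h] at hGA
    · exfalso
      rw [h] at h1
      exact hnr (σ v) ((hσr v).symm.trans h1)
  -- the unbalanced case: a shortest odd closed walk
  obtain ⟨r, hr, hrm⟩ := Nat.find_spec hodd
  set m := Nat.find hodd with hm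
  have hmin : ∀ n (r : ℕ → V × Bool), (∀ i < n, GA R (r i) (r (i + 1))) → r n = deckMap (r 0) → m ≤ n :=
    fun n r h1 h2 => Nat.find_min' hodd ⟨r, h1, h2⟩
  have hm0 : m ≠ 0 := by
    intro h
    rw [h] at hrm
    exact deckMap_ne _ hrm.symm
  have hm1 : m ≠ 1 := by
    intro h
    have h1 := hr 0 (by omega)
    rw [h] at hrm
    rw [zero_add, hrm] at h1
    exact h1.adj.ne rfl
  have hmpos : 0 < m := Nat.pos_of_ne_zero hm0
  set q : ℕ → V × Bool := fun i => deckMap^[i / m] (r (i % m)) with hq
  have hqm : ∀ i, q (i + m) = deckMap (q i) := by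
    intro i
    simp only [hq]
    rw [Nat.add_div_right _ hmpos, Nat.add_mod_right, iter_add]
  have hq0 : ∀ i, i < m → q i = r i := by
    intro i hi
    simp only [hq]
    rw [Nat.div_eq_of_lt hi, Nat.mod_eq_of_lt hi]; rfl
  have hqd : ∀ i, q i = deckMap^[i / m] (q (i % m)) := by
    intro i
    rw [hq0 _ (Nat.mod_lt _ hmpos)]
  have hGA : ∀ i, GA R (q i) (q (i + 1)) := by
    intro i
    have h1 : q (i + 1) = deckMap^[i / m] (r (i % m + 1)) := by
      rcases Nat.lt_or_ge (i % m + 1) m with h | h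
      · have e1 : (i + 1) / m = i / m := by
          have h0 := Nat.div_add_mod i m
          have h3 : i + 1 = (i % m + 1) + m * (i / m) := by omega
          have h4 : (i + 1) / m = ((i % m + 1) + m * (i / m)) / m := by rw [← h3]
          rw [h4, Nat.add_mul_div_left _ _ hmpos, Nat.div_eq_of_lt h, zero_add]
        have e2 : (i + 1) % m = i % m + 1 := by
          have h2 := Nat.div_add_mod i m
          have h3 := Nat.div_add_mod (i + 1) m
          rw [e1] at h3; omega
        simp only [hq]; rw [e1, e2]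
      · have hlt := Nat.mod_lt i hmpos
        have e0 : i % m + 1 = m := by omega
        have h2 := Nat.div_add_mod i m
        have e1 : (i + 1) = m * (i / m + 1) := by rw [Nat.mul_add]; omega
        have e2 : (i + 1) / m = i / m + 1 := by rw [e1]; exact Nat.mul_div_cancel_left _ hmpos
        have e3 : (i + 1) % m = 0 := by rw [e1]; exact Nat.mul_mod_right _ _
        simp only [hq]
        rw [e2, e3, e0, hrm, ← Function.iterate_succ_apply]
    rw [h1]
    exact (hr _ (Nat.mod_lt _ hmpos)).iter _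
  -- minimality: first coordinates are distinct
  have hfst : ∀ i j, i < j → j < m → (q i).1 ≠ (q j).1 := by
    intro i j hij hj h
    rcases eq_or_deck h with h1 | h1
    · have := hmin (m - (j - i)) (fun k => if k ≤ i then q k else q (k + (j - i))) (by
        intro k hk
        show GA R (if k ≤ i then q k else q (k + (j - i)))
          (if k + 1 ≤ i then q (k + 1) else q (k + 1 + (j - i)))
        rcases lt_trichotomy k i with h2 | h2 | h2
        · rw [if_pos h2.le, if_pos (show k + 1 ≤ i from h2)]; exact hGA k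
        · subst h2
          rw [if_pos le_rfl, if_neg (by omega), ← h1]
          have : k + 1 + (j - k) = j + 1 := by omega
          rw [this]; exact hGA j
        · rw [if_neg (by omega), if_neg (by omega)]
          have : k + 1 + (j - i) = k + (j - i) + 1 := by omega
          rw [this]; exact hGA _) (by
        show (if m - (j - i) ≤ i then q (m - (j - i)) else q (m - (j - i) + (j - i))) =
          deckMap (if 0 ≤ i then q 0 else q (0 + (j - i)))
        rw [if_neg (by omega), if_pos (Nat.zero_le _)]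
        have : m - (j - i) + (j - i) = 0 + m := by omega
        rw [this, hqm])
      omega
    · have := hmin (j - i) (fun k => q (i + k)) (by
        intro k hk
        exact hGA (i + k)) (by
        show q (i + (j - i)) = deckMap (q (i + 0))
        have : i + (j - i) = j := by omega
        rw [this, h1]; rfl)
      omega
  have hfst' : ∀ i j, i < m → j < m → (q i).1 = (q j).1 → i = j := by
    intro i j hi hj h
    rcases lt_trichotomy i j with h1 | h1 | h1
    · exact absurd h (hfst i j h1 hj)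
    · exact h1
    · exact absurd h.symm (hfst j i h1 hi)
  have hclose : ∀ a b, a < b → b < m → GA R (q a) (deckMap (q b)) → a = 0 ∧ b = m - 1 := by
    intro a b hab hb h
    have := hmin (b - a + 1) (fun k => if k = 0 then deckMap (q b) else q (a + (k - 1))) (by
      intro k hk
      show GA R (if k = 0 then deckMap (q b) else q (a + (k - 1)))
        (if k + 1 = 0 then deckMap (q b) else q (a + (k + 1 - 1)))
      rcases Nat.eq_zero_or_pos k with h2 | h2
      · subst h2; rw [if_pos rfl, if_neg (by omega)]; exact h.symm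
      · rw [if_neg (by omega), if_neg (by omega)]
        have : a + (k + 1 - 1) = a + (k - 1) + 1 := by omega
        rw [this]; exact hGA _) (by
      show (if b - a + 1 = 0 then deckMap (q b) else q (a + (b - a + 1 - 1))) =
        deckMap (if 0 = 0 then deckMap (q b) else q (a + (0 - 1)))
      rw [if_neg (by omega), if_pos rfl, deckMap_inv]
      congr 1; omega)
    omega
  have hq1 : ∀ i, (q i).1 = (q (i % m)).1 := fun i =>
    (congrArg Prod.fst (hqd i)).trans (iter_fst _ _)
  -- q i = q j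
  have hqinj : ∀ i j, q i = q j → i % m = j % m ∧ (i / m) % 2 = (j / m) % 2 := by
    intro i j h
    have h1 : (q (i % m)).1 = (q (j % m)).1 :=
      (hq1 i).symm.trans ((congrArg Prod.fst h).trans (hq1 j))
    have h2 := hfst' _ _ (Nat.mod_lt _ hmpos) (Nat.mod_lt _ hmpos) h1
    refine ⟨h2, ?_⟩
    have h3 : deckMap^[i / m] (q (j % m)) = deckMap^[j / m] (q (j % m)) := by
      rw [← hqd j, ← h, ← h2, ← hqd i]
    exact iter_even h3
  -- the parity function
  have hEn : ∀ i, ∃ ε, (edg R).Ends ε (q i) (q (i + 1)) := hGA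
  choose ε hε using hEn
  have hεm : ∀ i, ε (i + m) = mir (ε i) := by
    intro i
    have h1 := hε (i + m)
    have e1 : i + m + 1 = (i + 1) + m := by ring
    rw [e1, hqm, hqm] at h1
    exact h1.unique (ends_mir R (hε i))
  obtain ⟨par, hpar1, hpar2⟩ := parity (deck R) q (fun i => (edg R).th (ε i)) m hqm (by
    intro i
    show ∃ k : ℤ, (edg R).th (ε (i + m)) = (edg R).th (ε i) + Real.pi + k * (2 * Real.pi)
    rw [hεm]; exact th_mir R (ε i)) (by
    intro i
    have h1 := (edg R).sees (ε i)
    rcases hε i with ⟨h2, h3⟩ | ⟨h2, h3⟩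
    · left; rw [h2, h3] at h1; exact h1
    · right; rw [h2, h3] at h1; exact h1)
  have hparGA : ∀ w w', w ∉ Set.range q → w' ∉ Set.range q → GA R w w' → (par w ↔ par w') := by
    rintro w w' hw hw' ⟨ε', h⟩
    have h1 := (edg R).sees ε'
    rcases h with ⟨h2, h3⟩ | ⟨h2, h3⟩
    · rw [h2, h3] at h1; exact hpar2 _ _ _ hw hw' h1
    · rw [h2, h3] at h1; exact (hpar2 _ _ _ hw' hw h1).symm
  have hrange : ∀ w, w ∈ Set.range q ↔ deckMap w ∈ Set.range q := by
    intro w; constructor
    · rintro ⟨i, rfl⟩; exact ⟨i + m, hqm i⟩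
    · rintro ⟨i, hi⟩
      refine ⟨i + m, ?_⟩
      rw [hqm, hi, deckMap_inv]
  -- sections
  have hex1 : ∀ v, ∃ w : V × Bool, w.1 = v ∧ ((∃ i < m, w = q i) ∨ (w ∉ Set.range q ∧ par w)) := by
    intro v
    by_cases h : (v, true) ∈ Set.range q
    · obtain ⟨i, hi⟩ := h
      refine ⟨q (i % m), ?_, Or.inl ⟨i % m, Nat.mod_lt _ hmpos, rfl⟩⟩
      exact (hq1 i).symm.trans (congrArg Prod.fst hi)
    · by_cases hp : par (v, true)
      · exact ⟨(v, true), rfl, Or.inr ⟨h, hp⟩⟩
      · have h2 : deckMap (v, true) ∉ Set.range q := fun h' => h ((hrange _).2 h')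
        refine ⟨deckMap (v, true), rfl, Or.inr ⟨h2, ?_⟩⟩
        by_contra hcon
        exact hp ((hpar1 _ h).2 hcon)
  choose σ₁ hσ₁ hσ₁' using hex1
  -- uniqueness of section elements
  have huniq : ∀ w v, w.1 = v → ((∃ i < m, w = q i) ∨ (w ∉ Set.range q ∧ par w)) → w = σ₁ v := by
    intro w v hwv hw
    rcases eq_or_deck (show w.1 = (σ₁ v).1 by rw [hwv, hσ₁]) with h | h
    · exact h.symm
    · exfalso
      rcases hw with ⟨i, hi, rfl⟩ | ⟨hw1, hw2⟩
      · rcases hσ₁' v with ⟨j, hj, h'⟩ | ⟨h1, h2⟩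
        · have : (q i).1 = (q j).1 := by rw [← h', h]; rfl
          have := hfst' i j hi hj this
          subst this
          rw [h'] at h
          exact deckMap_ne _ h.symm
        · apply h1
          rw [h]; exact ⟨i + m, hqm i⟩
      · rcases hσ₁' v with ⟨j, hj, h'⟩ | ⟨h1, h2⟩
        · apply hw1
          rw [hrange, ← h, h']; exact ⟨j, rfl⟩
        · rw [h] at h2
          exact (hpar1 w hw1).1 hw2 h2
  set σ₂ : V → V × Bool := fun v => if σ₁ v ∈ Set.range q then deckMap (σ₁ v) else σ₁ v with hσ₂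
  have hσ₂f : ∀ v, (σ₂ v).1 = v := by
    intro v
    simp only [hσ₂]
    split_ifs
    · exact hσ₁ v
    · exact hσ₁ v
  have hσq : ∀ v, σ₁ v ∈ Set.range q → ∃ i < m, σ₁ v = q i := by
    intro v hv
    rcases hσ₁' v with h | ⟨h, -⟩
    · exact h
    · exact absurd hv h
  have hσp : ∀ v, σ₁ v ∉ Set.range q → par (σ₁ v) := by
    intro v hv
    rcases hσ₁' v with ⟨i, -, h⟩ | ⟨-, h⟩
    · exact absurd ⟨i, h.symm⟩ hv
    · exact h
  set x₀ : V := (q (m - 1)).1 with hx₀
  set y₀ : V := (q 0).1 with hy₀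
  have hσx : σ₁ x₀ = q (m - 1) := (huniq _ _ rfl (Or.inl ⟨m - 1, by omega, rfl⟩)).symm
  have hσy : σ₁ y₀ = q 0 := (huniq _ _ rfl (Or.inl ⟨0, hmpos, rfl⟩)).symm
  set G₁ : SimpleGraph V :=
    { Adj := fun u v => (R.visGraph 0).Adj u v ∧ (GA R (σ₁ u) (σ₁ v) ∨ s(u, v) = s(x₀, y₀))
      symm := ⟨fun u v h => ⟨h.1.symm, h.2.imp GA.symm (fun h => by rw [Sym2.eq_swap]; exact h)⟩⟩
      loopless := ⟨fun u h => h.1.ne rfl⟩ } with hG₁
  set G₂ : SimpleGraph V :=
    { Adj := fun u v => (R.visGraph 0).Adj u v ∧ GA R (σ₂ u) (σ₂ v)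
      symm := ⟨fun u v h => ⟨h.1.symm, h.2.symm⟩⟩
      loopless := ⟨fun u h => h.1.ne rfl⟩ } with hG₂
  refine ⟨G₁, G₂, ?_, section_planar D σ₂ hσ₂f G₂ (fun u v h => h.2), ?_⟩
  · -- the first layer
    refine section_planar' D σ₁ hσ₁ G₁ x₀ y₀ (fun u v h hne => h.2.resolve_right hne)
      (fun j => q (m - 1 + j)) m (by omega) ?_ (fun i _ => hGA _) ?_ ?_ ?_
    · intro i j hi hj h
      obtain ⟨h1, h2⟩ := hqinj _ _ h
      have e1 := Nat.div_add_mod (m - 1 + i) m
      have e2 := Nat.div_add_mod (m - 1 + j) m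
      obtain ⟨a, ha⟩ : ∃ a, a = (m - 1 + i) / m := ⟨_, rfl⟩
      obtain ⟨b, hb⟩ : ∃ b, b = (m - 1 + j) / m := ⟨_, rfl⟩
      rw [← ha] at e1 h2
      rw [← hb] at e2 h2
      have ha' : a ≤ 2 := by
        rw [ha]
        apply Nat.le_of_lt_succ
        rw [Nat.div_lt_iff_lt_mul hmpos]; omega
      have hb' : b ≤ 2 := by
        rw [hb]
        apply Nat.le_of_lt_succ
        rw [Nat.div_lt_iff_lt_mul hmpos]; omega
      rw [h1] at e1
      have h3 : m * a = m * b ∨ m * a + 2 * m = m * b ∨ m * b + 2 * m = m * a := by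
        have : a = b ∨ a + 2 = b ∨ b + 2 = a := by omega
        rcases this with h | h | h
        · left; rw [h]
        · right; left; rw [← h]; ring
        · right; right; rw [← h]; ring
      rcases h3 with h | h | h <;> omega
    · show q (m - 1 + 0) = σ₁ x₀
      rw [hσx]; rfl
    · show q (m - 1 + (m + 1)) = σ₁ y₀
      rw [hσy]
      have : m - 1 + (m + 1) = 0 + m + m := by omega
      rw [this, hqm, hqm, deckMap_inv]
    · intro i h1 h2 v h
      have e1 : m - 1 + i = (i - 1) + m := by omega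
      have h' : q (m - 1 + i) = σ₁ v := h
      rw [e1, hqm] at h'
      rcases hσ₁' v with ⟨j, hj, h3⟩ | ⟨h3, -⟩
      · have : (q (i - 1)).1 = (q j).1 := by rw [← h3, ← h']; rfl
        have := hfst' (i - 1) j (by omega) hj this
        rw [h3, ← this] at h'
        exact deckMap_ne _ h'
      · apply h3; rw [← h', ← hrange]; exact ⟨_, rfl⟩
  · -- every edge is in one of the layers
    ext u v
    rw [SimpleGraph.sup_adj]
    constructor
    swap
    · rintro (h | h) <;> exact h.1
    intro huv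
    obtain ⟨w, hw, hGw⟩ := GA.lift huv (hσ₁ u)
    rcases eq_or_deck (show (σ₁ v).1 = w.1 by rw [hσ₁, hw]) with h | h
    · left; exact ⟨huv, Or.inl (h ▸ hGw)⟩
    · subst h
      by_cases hv : σ₁ v ∈ Set.range q
      · by_cases hu : σ₁ u ∈ Set.range q
        · -- both on the cycle
          left
          refine ⟨huv, Or.inr ?_⟩
          obtain ⟨i, hi, hui⟩ := hσq u hu
          obtain ⟨j, hj, hvj⟩ := hσq v hv
          have hne : i ≠ j := by
            rintro rfl
            apply huv.ne
            rw [← hσ₁ u, ← hσ₁ v, hui, hvj]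
          have hu' : u = (q i).1 := by rw [← hui, hσ₁]
          have hv' : v = (q j).1 := by rw [← hvj, hσ₁]
          rw [hui, hvj] at hGw
          rcases lt_or_gt_of_ne hne with h1 | h1
          · obtain ⟨h2, h3⟩ := hclose i j h1 hj hGw
            subst h2; subst h3
            rw [hu', hv', Sym2.eq_swap]
          · have h4 := hGw.symm.deck
            rw [deckMap_inv] at h4
            obtain ⟨h2, h3⟩ := hclose j i h1 hi h4
            subst h2; subst h3
            rw [hu', hv']
        · right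
          refine ⟨huv, ?_⟩
          have e1 : σ₂ u = σ₁ u := by simp only [hσ₂, if_neg hu]
          have e2 : σ₂ v = deckMap (σ₁ v) := by simp only [hσ₂, if_pos hv]
          rw [e1, e2]; exact hGw
      · by_cases hu : σ₁ u ∈ Set.range q
        · right
          refine ⟨huv, ?_⟩
          have e1 : σ₂ v = σ₁ v := by simp only [hσ₂, if_neg hv]
          have e2 : σ₂ u = deckMap (σ₁ u) := by simp only [hσ₂, if_pos hu]
          rw [e1, e2]
          have := hGw.deck
          rwa [deckMap_inv] at this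
        · exfalso
          have hd : deckMap (σ₁ v) ∉ Set.range q := fun h => hv ((hrange _).2 h)
          have h1 := hparGA _ _ hu hd hGw
          exact (hpar1 _ hv).1 (hσp v hv) (h1.1 (hσp u hu))

end Pool.Agent.helper68.Arcs
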