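import Pool.Agent.helper68.Arcs.Draw
/-! Planarity of graphs routed through the drawing of a bar visibility graph. -/
namespace Pool.Agent.helper68.Arcs
open Set

variable {W : Type} {B : Cyl W} {ι : Type} (E : Edges B ι)

/-- the edge `ε` joins `x` and `y` -/
def Edges.Ends (ε : ι) (x y : W) : Prop := (E.lo ε = x ∧ E.hi ε = y) ∨ (E.lo ε = y ∧ E.hi ε = x)

variable {E}

theorem Edges.Ends.symm {ε : ι} {x y : W} (h : E.Ends ε x y) : E.Ends ε y x := Or.symm h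

theorem Edges.ends_of {ε : ι} {x y w : W} (h : E.Ends ε x y) (hw : w = E.lo ε ∨ w = E.hi ε) :
    w = x ∨ w = y := by
  rcases h with ⟨h1, h2⟩ | ⟨h1, h2⟩ <;> rcases hw with h | h <;> subst h
  · exact Or.inl h1
  · exact Or.inr h2
  · exact Or.inr h1
  · exact Or.inl h2

theorem Edges.Ends.ne {ε : ι} {x y : W} (h : E.Ends ε x y) : x ≠ y := by
  have := (E.sees ε).2.2.1
  rcases h with ⟨h1, h2⟩ | ⟨h1, h2⟩ <;> rintro rfl <;> rw [h1, h2] at this <;> exact lt_irrefl _ this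

theorem Edges.Ends.unique {ε ε' : ι} {x y : W} (h : E.Ends ε x y) (h' : E.Ends ε' x y) : ε = ε' := by
  have a1 := (E.sees ε).2.2.1
  have a2 := (E.sees ε').2.2.1
  rcases h with ⟨h1, h2⟩ | ⟨h1, h2⟩ <;> rcases h' with ⟨h3, h4⟩ | ⟨h3, h4⟩
  · exact E.uniq _ _ (h1.trans h3.symm) (h2.trans h4.symm)
  · rw [h1, h2] at a1; rw [h3, h4] at a2; exact absurd a1 (not_lt.2 a2.le)
  · rw [h1, h2] at a1; rw [h3, h4] at a2; exact absurd a1 (not_lt.2 a2.le)
  · exact E.uniq _ _ (h1.trans h3.symm) (h2.trans h4.symm)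

theorem Edges.Ends.eq_cases {ε : ι} {x y x' y' : W} (h : E.Ends ε x y) (h' : E.Ends ε x' y') :
    (x = x' ∧ y = y') ∨ (x = y' ∧ y = x') := by
  rcases h with ⟨h1, h2⟩ | ⟨h1, h2⟩ <;> rcases h' with ⟨h3, h4⟩ | ⟨h3, h4⟩ <;>
    subst h1 <;> subst h2 <;> subst h3 <;> subst h4 <;> simp

/-- a drawing of all edges of `E` -/
structure Drawing (E : Edges B ι) (p : W → ℂ) (A : ι → Set ℂ) : Prop where
  inj : Function.Injective p
  arc : ∀ e, IsArc (A e) (p (E.lo e)) (p (E.hi e))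
  vert : ∀ e w, p w ∈ A e → w = E.lo e ∨ w = E.hi e
  cross : ∀ e f, e ≠ f → ∀ z, z ∈ A e → z ∈ A f →
        ∃ w, (w = E.lo e ∨ w = E.hi e) ∧ (w = E.lo f ∨ w = E.hi f) ∧ z = p w

variable {p : W → ℂ} {A : ι → Set ℂ}

theorem Drawing.arc' (D : Drawing E p A) {ε : ι} {x y : W} (h : E.Ends ε x y) :
    IsArc (A ε) (p x) (p y) := by
  rcases h with ⟨rfl, rfl⟩ | ⟨rfl, rfl⟩
  · exact D.arc ε
  · exact (D.arc ε).symm

theorem Drawing.route (D : Drawing E p A) {V : Type} (H : SimpleGraph V) (σ : V → W)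
    (hσ : Function.Injective σ) (S : Sym2 V → Set ι)
    (h1 : ∀ u v, H.Adj u v → IsArc (⋃ ε ∈ S s(u, v), A ε) (p (σ u)) (p (σ v)))
    (h2 : ∀ e ∈ H.edgeSet, ∀ f ∈ H.edgeSet, e ≠ f → ∀ ε ∈ S e, ε ∉ S f)
    (h3 : ∀ e ∈ H.edgeSet, ∀ f ∈ H.edgeSet, e ≠ f → ∀ ε ∈ S e, ∀ ε' ∈ S f, ∀ w,
      (w = E.lo ε ∨ w = E.hi ε) → (w = E.lo ε' ∨ w = E.hi ε') → ∃ v, v ∈ e ∧ v ∈ f ∧ w = σ v)
    (h4 : ∀ e ∈ H.edgeSet, ∀ ε ∈ S e, ∀ v, (σ v = E.lo ε ∨ σ v = E.hi ε) → v ∈ e) :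
    Planar H := by
  refine ⟨p ∘ σ, fun e => ⋃ ε ∈ S e, A ε, D.inj.comp hσ, h1, ?_, ?_⟩
  · intro e he w hw
    simp only [mem_iUnion] at hw
    obtain ⟨ε, hε, hw⟩ := hw
    exact h4 e he ε hε w (D.vert ε (σ w) hw)
  · intro e he f hf hef z hz hz'
    simp only [mem_iUnion] at hz hz'
    obtain ⟨ε, hε, hz⟩ := hz
    obtain ⟨ε', hε', hz'⟩ := hz'
    have hne : ε ≠ ε' := by
      rintro rfl; exact h2 e he f hf hef ε hε hε'
    obtain ⟨w, hw, hw', rfl⟩ := D.cross ε ε' hne z hz hz'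
    obtain ⟨v, hv, hv', rfl⟩ := h3 e he f hf hef ε hε ε' hε' w hw hw'
    exact ⟨v, hv, hv', rfl⟩

theorem Drawing.path (D : Drawing E p A) (q : ℕ → W) (ε : ℕ → ι) (L : ℕ)
    (hinj : ∀ i j, i ≤ L + 1 → j ≤ L + 1 → q i = q j → i = j)
    (hε : ∀ i, i ≤ L → E.Ends (ε i) (q i) (q (i + 1))) :
    IsArc (⋃ i ∈ {i | i ≤ L}, A (ε i)) (p (q 0)) (p (q (L + 1))) := by
  induction L with
  | zero =>
    have : (⋃ i ∈ {i : ℕ | i ≤ 0}, A (ε i)) = A (ε 0) := by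
      ext z; simp
    rw [this]
    exact D.arc' (hε 0 le_rfl)
  | succ L ih =>
    have e : (⋃ i ∈ {i : ℕ | i ≤ L + 1}, A (ε i)) = (⋃ i ∈ {i : ℕ | i ≤ L}, A (ε i)) ∪ A (ε (L + 1)) := by
      ext z
      simp only [mem_iUnion, mem_ofPred_eq, mem_union]
      constructor
      · rintro ⟨i, hi, hz⟩
        rcases Nat.lt_or_ge i (L + 1) with h | h
        · exact Or.inl ⟨i, by omega, hz⟩
        · have : i = L + 1 := by omega
          subst this; exact Or.inr hz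
      · rintro (⟨i, hi, hz⟩ | hz)
        · exact ⟨i, by omega, hz⟩
        · exact ⟨L + 1, le_rfl, hz⟩
    rw [e]
    refine (ih (fun i j hi hj => hinj i j (by omega) (by omega)) (fun i hi => hε i (by omega))).trans
      (D.arc' (hε (L + 1) le_rfl)) ?_
    intro z hz hz'
    simp only [mem_iUnion, mem_ofPred_eq] at hz
    obtain ⟨i, hi, hz⟩ := hz
    have e1 := hε i (by omega)
    have e2 := hε (L + 1) le_rfl
    have hne : ε i ≠ ε (L + 1) := by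
      intro h
      rw [h] at e1
      rcases e1.eq_cases e2 with ⟨h1, -⟩ | ⟨h1, -⟩
      · have := hinj _ _ (by omega) (by omega) h1; omega
      · have := hinj _ _ (by omega) (by omega) h1; omega
    obtain ⟨w, hw, hw', rfl⟩ := D.cross _ _ hne z hz hz'
    rcases Edges.ends_of e1 hw with h | h <;> rcases Edges.ends_of e2 hw' with h' | h'
    · have := hinj _ _ (by omega) (by omega) (h.symm.trans h'); omega
    · have := hinj _ _ (by omega) (by omega) (h.symm.trans h'); omega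
    · rw [h']
    · have := hinj _ _ (by omega) (by omega) (h.symm.trans h'); omega

end Pool.Agent.helper68.Arcs
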